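import Mathlib
import Pool.Agent.Lib.MP_12adaf_nt.CM.Defs
import Pool.Agent.Lib.MP_12adaf_nt.CM.Parity

section

section

/-!
# Trigonometric Calogero-Moser duality: definitions

For `g` with roots `x_i` and an even function `w` on the roots let `X` be the operator
`φ ↦ w * ∑_j φ(x_j)/(2 + x_j - x_i)` on `K[X]/g`, that is `X_ij = w_i/(2 + x_j - x_i)`.  Then
`X Λ - Λ X + 2 X = w ⊗ Tr` for `Λ` = multiplication by the variable, and `f = charpoly X`
satisfies `disc f = c(1) * square` and `f(0) disc f = c(0) * square` (times `- 2 w(0)` if `n` is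
odd) for `g = c(X^2)` or `X c(X^2)`.
-/

namespace Pool.Agent.Lib.MP_12adaf_nt

set_option linter.unusedSectionVars false
set_option linter.unusedVariables false

open Finset Polynomial

section Ring

variable {R : Type*} [CommRing R]

/-- The polynomial `g(X - 2)`. -/
noncomputable def gsh (g : R[X]) : R[X] := g.comp (X - C 2)

/-- The matrix of `P(X) ↦ P(X - 2)` in the basis of powers. -/
noncomputable def Shm (R : Type*) [CommRing R] (n : ℕ) : Matrix (Fin n) (Fin n) R :=
  Matrix.of fun i j => ((X - C 2 : R[X]) ^ (j : ℕ)).coeff i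

/-- The Krylov matrix of the transpose of `M` and of the trace vector of `g`. -/
noncomputable def Krt (n : ℕ) (g : R[X]) (M : Matrix (Fin n) (Fin n) R) :
    Matrix (Fin n) (Fin n) R :=
  Matrix.of fun i j => ((M.transpose ^ (j : ℕ)).mulVec fun k : Fin n => pS n g k) i

/-- `g(X + 1) = Ev(X^2) + X * Od(X^2)`. -/
noncomputable def Ev (g : R[X]) : R[X] := contract 2 (g.comp (X + C 1))

/-- `g(X + 1) = Ev(X^2) + X * Od(X^2)`. -/
noncomputable def Od (g : R[X]) : R[X] := contract 2 (divX (g.comp (X + C 1)))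

/-- The resultant of the odd and the even part. -/
noncomputable def rho (n : ℕ) (g : R[X]) : R :=
  resultant (Od g) (Ev g) ((n - 1) / 2) (n / 2)

/-- `det (Amat (gof n c)) = c(0) * aT ^ 2`. -/
noncomputable def aT (n : ℕ) (c : R[X]) : R := 2 ^ (n / 2) * c.discr * c.coeff 0 ^ (n % 2)

end Ring

section Field

variable {K : Type*} [Field K]

/-- The operator `φ ↦ ∑_j φ(x_j)/(2 + x_j - x)` on `K[X]/g`. -/
noncomputable def Cm (n : ℕ) (g : K[X]) : Matrix (Fin n) (Fin n) K :=
  -((Mmat n g (gsh g))⁻¹ * Shm K n * Mmat n g (derivative g))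

/-- The operator `X_ij = w_i/(2 + x_j - x_i)` on `K[X]/g`. -/
noncomputable def XT (n : ℕ) (g w : K[X]) : Matrix (Fin n) (Fin n) K := Mmat n g w * Cm n g

/-- The operator `Λ_ij = 2 y_i/(y_i - y_j)`, `Λ_ii = 0`, on `K[X]/f`. -/
noncomputable def LT (n : ℕ) (f : K[X]) : Matrix (Fin n) (Fin n) K :=
  (2 : K) • (Mmat n f X * Ymat n f)

/-- The polynomial with parameters `(c, p)`. -/
noncomputable def fT (n : ℕ) (c p : K[X]) : K[X] := (XT n (gof n c) (expand K 2 p)).charpoly

/-- `disc (fT n c p) = c(1) * k1T ^ 2`. -/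
noncomputable def k1T (n : ℕ) (c p : K[X]) : K :=
  (Krt n (gof n c) (XT n (gof n c) (expand K 2 p))).det * rho n (gof n c) /
    (c.coeff 0 * aT n c ^ 2)

/-- `fT(0) * disc fT = (-2 p(0)) ^ (n % 2) * c(0) * k2T ^ 2`. -/
noncomputable def k2T (n : ℕ) (c p : K[X]) : K :=
  (Mmat (n / 2) c p).det * (Krt n (gof n c) (XT n (gof n c) (expand K 2 p))).det /
    (2 ^ (n / 2 + n % 2) * c.coeff 0 * aT n c)

end Field

end Pool.Agent.Lib.MP_12adaf_nt
end

section

/-!
# The Cauchy operator in the basis of the roots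
-/

namespace Pool.Agent.Lib.MP_12adaf_nt

set_option linter.unusedSectionVars false
set_option linter.unusedVariables false

open Finset Polynomial

variable {L : Type*} [Field L] [CharZero L] {n : ℕ} {x : Fin n → L}

/-- The matrix `1/(2 + x_j - x_i)`. -/
def CC (x : Fin n → L) : Matrix (Fin n) (Fin n) L := Matrix.of fun i j => 1 / (2 + x j - x i)

/-- The values of `gsh (nod x)` at the roots. -/
lemma eval_gsh_nod (x : Fin n → L) (z : L) : (gsh (nod x)).eval z = ∏ k, (z - 2 - x k) := by
  rw [gsh, eval_comp, eval_nod]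
  simp only [eval_sub, eval_X, eval_C]

/-- Determinant of a multiplication matrix. -/
lemma det_Mmat_nod (hx : Function.Injective x) (T : L[X]) :
    (Mmat n (nod x) T).det = ∏ i, T.eval (x i) := by
  have h1 := congrArg Matrix.det (vandermonde_mul_Mmat x T)
  rw [Matrix.det_mul, Matrix.det_mul, Matrix.det_diagonal, mul_comm] at h1
  exact mul_right_cancel₀ (isUnit_vandermonde hx).ne_zero h1

/-- `2 + x_j - x_i ≠ 0` for all `i, j`. -/
lemma det_gsh_ne_zero_iff (hx : Function.Injective x) :
    (Mmat n (nod x) (gsh (nod x))).det ≠ 0 ↔ ∀ i j, 2 + x j - x i ≠ 0 := by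
  rw [det_Mmat_nod hx]
  simp only [eval_gsh_nod, Finset.prod_ne_zero_iff, Finset.mem_univ, true_imp_iff]
  refine forall_congr' fun i => forall_congr' fun j => not_congr ?_
  constructor
  · intro h; linear_combination -h
  · intro h; linear_combination -h

/-- `V * Shm = V(x - 2)`. -/
lemma vandermonde_mul_Shm (x : Fin n → L) :
    Matrix.vandermonde x * Shm L n = Matrix.vandermonde (fun i => x i - 2) := by
  ext i j
  rw [Matrix.mul_apply, Matrix.vandermonde_apply]
  simp only [Matrix.vandermonde_apply, Shm, Matrix.of_apply]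
  have h1 : ((X - C 2 : L[X]) ^ (j : ℕ)).degree < n := by
    rw [degree_pow, degree_X_sub_C, nsmul_eq_mul, mul_one]
    exact_mod_cast j.2
  rw [← eval_of_degree_lt h1 (x i)]
  simp

lemma vandermonde_sub_mul_Mmat (hx : Function.Injective x) (h2 : ∀ i j, 2 + x j - x i ≠ 0) :
    Matrix.vandermonde (fun i => x i - 2) * Mmat n (nod x) (derivative (nod x)) =
      -(Matrix.diagonal (fun i => (gsh (nod x)).eval (x i)) * (CC x * Matrix.vandermonde x)) := by
  ext i j
  rw [Matrix.neg_apply, Matrix.diagonal_mul, Matrix.mul_apply, Matrix.mul_apply]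
  simp only [Matrix.vandermonde_apply, Mmat, Matrix.of_apply]
  rw [← eval_of_degree_lt (degree_modByMonic_nod_lt x _) (x i - 2),
    mul_derivative_modByMonic_nod hx, eval_finsetSum, Finset.mul_sum, ← Finset.sum_neg_distrib]
  refine Finset.sum_congr rfl fun k _ => ?_
  have h3 : x i - 2 ≠ x k := fun h => h2 i k (by rw [← h]; ring)
  have h4 : x i - 2 - x k ≠ 0 := sub_ne_zero.mpr h3
  have h5 := h2 i k
  rw [eval_mul, eval_C, eval_pow, eval_X, eval_nodE_eq_div x k _ h3, CC, Matrix.of_apply, gsh,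
    eval_comp, eval_sub, eval_X, eval_C]
  have h6 : x i - 2 - x k = -(2 + x k - x i) := by ring
  rw [h6]
  field_simp

/-- `Cm` is the Cauchy matrix in the basis of the roots.  Write `D(T)` for the diagonal matrix of
the values of `T` and `V` for the Vandermonde matrix.  `V * Shm = V(x - 2)`,
`V * (Mmat T)⁻¹ = D(T)⁻¹ * V`, and the value at `x_i - 2` of `X ^ j * g' %ₘ g`
`= ∑_k x_k ^ j * nodE x k` (`mul_derivative_modByMonic_nod`) is
`∑_k x_k ^ j * gsh(x_i) / (x_i - 2 - x_k)`. -/
theorem vandermonde_mul_Cm (hx : Function.Injective x) (h2 : ∀ i j, 2 + x j - x i ≠ 0) :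
    Matrix.vandermonde x * Cm n (nod x) = CC x * Matrix.vandermonde x := by
  have hM : IsUnit (Mmat n (nod x) (gsh (nod x))).det :=
    isUnit_iff_ne_zero.mpr ((det_gsh_ne_zero_iff hx).mpr h2)
  have hD : IsUnit (Matrix.diagonal (fun i => (gsh (nod x)).eval (x i))).det := by
    rw [Matrix.det_diagonal, ← det_Mmat_nod hx]; exact hM
  have h3 : Matrix.diagonal (fun i => (gsh (nod x)).eval (x i)) *
      (Matrix.vandermonde x * Cm n (nod x)) =
      Matrix.diagonal (fun i => (gsh (nod x)).eval (x i)) * (CC x * Matrix.vandermonde x) := by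
    rw [← mul_assoc, ← vandermonde_mul_Mmat, Cm, mul_neg, mul_assoc (Matrix.vandermonde x),
      mul_assoc (Mmat n (nod x) (gsh (nod x)))⁻¹, ← mul_assoc (Mmat n (nod x) (gsh (nod x))),
      Matrix.mul_nonsing_inv _ hM, one_mul, ← mul_assoc, vandermonde_mul_Shm,
      vandermonde_sub_mul_Mmat hx h2, neg_neg]
  have h4 := congrArg
    (fun M => (Matrix.diagonal (fun i => (gsh (nod x)).eval (x i)))⁻¹ * M) h3
  simpa only [← mul_assoc, Matrix.nonsing_inv_mul _ hD, one_mul] using h4

lemma det_Shm (hx : Function.Injective x) : (Shm L n).det = 1 := by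
  have h1 := congrArg Matrix.det (vandermonde_mul_Shm x)
  have h2 : (Matrix.vandermonde (fun i => x i - 2)).det = (Matrix.vandermonde x).det := by
    rw [Matrix.det_vandermonde, Matrix.det_vandermonde]
    refine Finset.prod_congr rfl fun i _ => Finset.prod_congr rfl fun j _ => ?_
    ring
  rw [Matrix.det_mul, h2] at h1
  have h3 : (Matrix.vandermonde x).det * (Shm L n).det = (Matrix.vandermonde x).det * 1 := by
    rw [h1, mul_one]
  exact mul_left_cancel₀ (isUnit_vandermonde hx).ne_zero h3

lemma det_Mmat_derivative_nod (hx : Function.Injective x) :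
    (Mmat n (nod x) (derivative (nod x))).det =
      (-1) ^ (n * (n - 1) / 2) * (nod x).discr := by
  rw [det_Mmat_nod hx, discr_nod, ← prod_prod_erase]
  refine Finset.prod_congr rfl fun i _ => ?_
  rw [eval_derivative_nod, eval_nodE]

/-- `det Shm = 1` (upper triangular) and `det (Mmat g') = (-1)^(n(n-1)/2) disc g`. -/
theorem det_Cm_nod (hx : Function.Injective x) (h2 : ∀ i j, 2 + x j - x i ≠ 0) :
    (Cm n (nod x)).det * (Mmat n (nod x) (gsh (nod x))).det =
      (-1) ^ n * ((-1) ^ (n * (n - 1) / 2) * (nod x).discr) := by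
  have hM : (Mmat n (nod x) (gsh (nod x))).det ≠ 0 := (det_gsh_ne_zero_iff hx).mpr h2
  rw [Cm, Matrix.det_neg, Matrix.det_mul, Matrix.det_mul, Matrix.det_nonsing_inv, det_Shm hx,
    det_Mmat_derivative_nod hx, Ring.inverse_eq_inv', Fintype.card_fin]
  field_simp

/-- `C Λ - Λ C + 2 C = 1 ⊗ Tr`. -/
theorem Cm_comm (hx : Function.Injective x) (h2 : ∀ i j, 2 + x j - x i ≠ 0) :
    Cm n (nod x) * Mmat n (nod x) X - Mmat n (nod x) X * Cm n (nod x) + (2 : L) • Cm n (nod x) =
      Matrix.vecMulVec (e0 n) (fun k : Fin n => pS n (nod x) k) := by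
  set V := Matrix.vandermonde x with hV
  have hVu : IsUnit V.det := isUnit_vandermonde hx
  have h1 : V * Cm n (nod x) = CC x * V := vandermonde_mul_Cm hx h2
  have h2' : V * Mmat n (nod x) X = Matrix.diagonal x * V := by
    have := vandermonde_mul_Mmat x X
    simpa only [eval_X] using this
  have h3 : V * (Cm n (nod x) * Mmat n (nod x) X - Mmat n (nod x) X * Cm n (nod x) +
      (2 : L) • Cm n (nod x)) =
      (CC x * Matrix.diagonal x - Matrix.diagonal x * CC x + (2 : L) • CC x) * V := by
    have p1 : V * (Cm n (nod x) * Mmat n (nod x) X) = CC x * Matrix.diagonal x * V := by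
      rw [← mul_assoc V, h1, mul_assoc (CC x) V, h2', ← mul_assoc (CC x)]
    have p2 : V * (Mmat n (nod x) X * Cm n (nod x)) = Matrix.diagonal x * CC x * V := by
      rw [← mul_assoc V, h2', mul_assoc (Matrix.diagonal x) V, h1, ← mul_assoc (Matrix.diagonal x)]
    rw [mul_add, mul_sub, p1, p2, Matrix.mul_smul, h1, add_mul, sub_mul, Matrix.smul_mul]
  have h4 : CC x * Matrix.diagonal x - Matrix.diagonal x * CC x + (2 : L) • CC x =
      Matrix.of fun _ _ => (1 : L) := by
    ext i j
    rw [Matrix.add_apply, Matrix.sub_apply, Matrix.mul_diagonal, Matrix.diagonal_mul,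
      Matrix.smul_apply, smul_eq_mul, CC, Matrix.of_apply, Matrix.of_apply]
    have h5 := h2 i j
    field_simp
    ring
  have h5 : V * Matrix.vecMulVec (e0 n) (fun k : Fin n => pS n (nod x) k) =
      (Matrix.of fun _ _ => (1 : L)) * V := by
    rw [Matrix.mul_vecMulVec, vandermonde_e0]
    ext i j
    rw [Matrix.vecMulVec_apply, Matrix.mul_apply, one_mul, pS_nod hx]
    refine Finset.sum_congr rfl fun k _ => ?_
    rw [Matrix.of_apply, one_mul, hV, Matrix.vandermonde_apply]
  have h6 : V * (Cm n (nod x) * Mmat n (nod x) X - Mmat n (nod x) X * Cm n (nod x) +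
      (2 : L) • Cm n (nod x)) =
      V * Matrix.vecMulVec (e0 n) (fun k : Fin n => pS n (nod x) k) := by
    rw [h3, h4, h5]
  have h7 := congrArg (fun M => V⁻¹ * M) h6
  simpa only [← mul_assoc, Matrix.nonsing_inv_mul _ hVu, one_mul] using h7

/-- The Cauchy form is symmetric: with `x (σ i) = - x i` one has
`V(-x) * Cm = (1/(2 + x_i + x_j)) * V`, hence `Amat * Cm = Vᵀ * (1/(2 + x_i + x_j)) * V`. -/
theorem Amat_mul_Cm_symm (hx : Function.Injective x)
    (hpar : (nod x).comp (-X) = (-1) ^ n * nod x) (h2 : ∀ i j, 2 + x j - x i ≠ 0) :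
    (Amat n (nod x) * Cm n (nod x)).transpose = Amat n (nod x) * Cm n (nod x) := by
  have hxn : Function.Injective fun i => - x i := fun i j h => hx (neg_injective h)
  have hneg := nod_neg_of_parity hpar
  have h2n : ∀ i j, 2 + (fun i => - x i) j - (fun i => - x i) i ≠ 0 := by
    intro i j h
    apply h2 j i
    rw [← h]
    ring
  have h3 : Matrix.vandermonde (fun i => - x i) * Cm n (nod x) =
      CC (fun i => - x i) * Matrix.vandermonde (fun i => - x i) := by
    have := vandermonde_mul_Cm hxn h2n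
    rwa [hneg] at this
  -- the involution
  have hσ : ∀ i, ∃ j, - x i = x j := by
    intro i
    rw [← eval_nod_eq_zero_iff, ← hneg]
    exact eval_nod_self (fun i => - x i) i
  choose σ hσ using hσ
  have hσinj : Function.Injective σ := by
    intro i j h
    apply hxn
    change - x i = - x j
    rw [hσ i, hσ j, h]
  have hσbij : Function.Bijective σ := Finite.injective_iff_bijective.mp hσinj
  set S : Matrix (Fin n) (Fin n) L := Matrix.of fun i j => 1 / (2 + x i + x j) with hS
  have hSt : S.transpose = S := by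
    ext i j
    rw [Matrix.transpose_apply, hS, Matrix.of_apply, Matrix.of_apply]
    congr 1
    ring
  have h4 : CC (fun i => - x i) * Matrix.vandermonde (fun i => - x i) =
      S * Matrix.vandermonde x := by
    ext i j
    rw [Matrix.mul_apply, Matrix.mul_apply]
    rw [← Function.Bijective.sum_comp hσbij (fun k => S i k * Matrix.vandermonde x k j)]
    refine Finset.sum_congr rfl fun k _ => ?_
    rw [CC, Matrix.of_apply, Matrix.vandermonde_apply, Matrix.vandermonde_apply, hS,
      Matrix.of_apply, ← hσ k]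
    congr 2
    ring
  have h5 : Amat n (nod x) * Cm n (nod x) =
      (Matrix.vandermonde x).transpose * (S * Matrix.vandermonde x) := by
    rw [← vandermonde_transpose_mul_neg hx, mul_assoc, h3, h4]
  rw [h5, Matrix.transpose_mul, Matrix.transpose_mul, Matrix.transpose_transpose, hSt, mul_assoc]

end Pool.Agent.Lib.MP_12adaf_nt
end

section

/-!
# The norm of `g(X - 2)` in `K[X]/g`
-/

namespace Pool.Agent.Lib.MP_12adaf_nt

set_option linter.unusedSectionVars false
set_option linter.unusedVariables false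

open Finset Polynomial

/-- `g(X + 1) = Ev(X^2) + X * Od(X^2)`. -/
lemma comp_eq_Ev_Od {R : Type*} [CommRing R] (g : R[X]) :
    g.comp (X + C 1) = expand R 2 (Ev g) + X * expand R 2 (Od g) := by
  ext k
  rw [coeff_add, coeff_expand two_pos]
  rcases k with _ | k
  · simp [Ev, coeff_contract]
  · rw [coeff_X_mul, coeff_expand two_pos, Ev, Od, coeff_contract two_ne_zero,
      coeff_contract two_ne_zero, coeff_divX]
    rcases Nat.even_or_odd' k with ⟨m, rfl | rfl⟩
    · rw [if_neg (by omega), if_pos (by omega), zero_add, Nat.div_mul_cancel (by omega)]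
    · rw [if_pos (by omega), if_neg (by omega), add_zero, Nat.div_mul_cancel (by omega)]

private lemma res_coeff_Ev {R : Type*} [CommRing R] (g : R[X]) (k : ℕ) :
    (Ev g).coeff k = (g.comp (X + C 1)).coeff (2 * k) := by
  rw [Ev, coeff_contract two_ne_zero, mul_comm]

private lemma res_coeff_Od {R : Type*} [CommRing R] (g : R[X]) (k : ℕ) :
    (Od g).coeff k = (g.comp (X + C 1)).coeff (2 * k + 1) := by
  rw [Od, coeff_contract two_ne_zero, coeff_divX, mul_comm]

private lemma res_natDegree_comp {R : Type*} [CommRing R] [Nontrivial R] {g : R[X]}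
    (hg : g.Monic) : (g.comp (X + C 1)).natDegree = g.natDegree := by
  have h : (X + C (1 : R)).Monic := monic_X_add_C 1
  rw [natDegree_comp_eq_of_mul_ne_zero]
  · rw [natDegree_X_add_C, mul_one]
  · rw [hg.leadingCoeff, h.leadingCoeff, one_pow, mul_one]
    exact one_ne_zero

private lemma res_natDegree_Ev {R : Type*} [CommRing R] [Nontrivial R] {g : R[X]} {n : ℕ}
    (hg : g.Monic) (hn : g.natDegree = n) : (Ev g).natDegree ≤ n / 2 := by
  rw [natDegree_le_iff_coeff_eq_zero]
  intro k hk
  rw [res_coeff_Ev]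
  apply coeff_eq_zero_of_natDegree_lt
  rw [res_natDegree_comp hg, hn]
  omega

/-- the top coefficients of `g(X + 1)` -/
private lemma res_coeff_top {L : Type*} [Field L] [CharZero L] {n : ℕ} (x : Fin n → L) :
    ((nod x).comp (X + C 1)).coeff n = 1 := by
  have h := res_natDegree_comp (nod_monic x)
  rw [natDegree_nod, Fintype.card_fin] at h
  have hm : ((nod x).comp (X + C 1)).Monic := (nod_monic x).comp_X_add_C 1
  have := hm.leadingCoeff
  rwa [leadingCoeff, h] at this

private lemma res_coeff_subtop {L : Type*} [Field L] [CharZero L] {n : ℕ} (hn : 1 ≤ n)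
    (x : Fin n → L) (hpar : (nod x).comp (-X) = (-1) ^ n * nod x) :
    ((nod x).comp (X + C 1)).coeff (n - 1) = n := by
  have e : (nod x).comp (X + C 1) = nod (fun i => x i - 1) := by
    rw [nod, nod, Polynomial.prod_comp]
    refine Finset.prod_congr rfl fun i _ => ?_
    simp only [sub_comp, X_comp, C_comp, C_sub]
    ring
  have hs : ∑ i, x i = 0 := by
    have h1 := nod_neg_of_parity hpar
    have h2 : (nod fun i => - x i).nextCoeff = (nod x).nextCoeff := by rw [h1]
    rw [nod, nod, prod_X_sub_C_nextCoeff, prod_X_sub_C_nextCoeff, Finset.sum_neg_distrib,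
      neg_neg] at h2
    have h3 : (2 : L) * ∑ i, x i = 0 := by linear_combination h2
    exact (mul_eq_zero.1 h3).resolve_left two_ne_zero
  have h2 : (nod fun i => x i - 1).nextCoeff = n := by
    rw [nod, prod_X_sub_C_nextCoeff, Finset.sum_sub_distrib, hs]
    simp
  rw [e, ← h2, nextCoeff_of_natDegree_pos (by rw [natDegree_nod, Fintype.card_fin]; omega),
    natDegree_nod, Fintype.card_fin]

/-- `∏_i Od((x_i - 1)^2) = rho ^ 2`.  Split `Od g = lc * ∏ (X - o_j)` and `o_j = r_j ^ 2` over an
algebraically closed field: the left side is `lc ^ n * ∏_j G(r_j) G(-r_j)` with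
`G = g(X + 1) = Ev(X^2) + X Od(X^2)`, and `G(± r_j) = Ev(o_j)`.  By `hpar` the coefficient of
`X ^ (n - 1)` in `g` is `0`, so that `Od g` has degree `(n - 1)/2` and leading coefficient `n`
(`n` even) or `1` (`n` odd); `Ev g` has degree `≤ n / 2`; use `resultant_eq_prod_eval`. -/
theorem prod_Od {L : Type*} [Field L] [CharZero L] [IsAlgClosed L] {n : ℕ} (hn : 1 ≤ n)
    (x : Fin n → L) (hpar : (nod x).comp (-X) = (-1) ^ n * nod x) :
    ∏ i, (Od (nod x)).eval ((x i - 1) ^ 2) = rho n (nod x) ^ 2 := by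
  classical
  have hgm := nod_monic x
  have hgn : (nod x).natDegree = n := by rw [natDegree_nod, Fintype.card_fin]
  have hle : (Od (nod x)).natDegree ≤ (n - 1) / 2 := by
    rw [natDegree_le_iff_coeff_eq_zero]
    intro k hk
    rw [res_coeff_Od]
    apply coeff_eq_zero_of_natDegree_lt
    rw [res_natDegree_comp hgm, hgn]
    omega
  have htop : (Od (nod x)).coeff ((n - 1) / 2) = if n % 2 = 0 then (n : L) else 1 := by
    rw [res_coeff_Od]
    split_ifs with h
    · rw [show 2 * ((n - 1) / 2) + 1 = n - 1 by omega]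
      exact res_coeff_subtop hn x hpar
    · rw [show 2 * ((n - 1) / 2) + 1 = n by omega]
      exact res_coeff_top x
  have htop0 : (Od (nod x)).coeff ((n - 1) / 2) ≠ 0 := by
    rw [htop]
    split_ifs with h
    · exact_mod_cast (by omega : n ≠ 0)
    · exact one_ne_zero
  have hdeg : (Od (nod x)).natDegree = (n - 1) / 2 :=
    le_antisymm hle (le_natDegree_of_ne_zero htop0)
  have hsplit : (Od (nod x)).Splits := IsAlgClosed.splits _
  have hres : rho n (nod x) = (Od (nod x)).leadingCoeff ^ (n / 2) *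
      ((Od (nod x)).roots.map (Ev (nod x)).eval).prod := by
    rw [rho, ← hdeg]
    exact resultant_eq_prod_eval _ _ _ (res_natDegree_Ev hgm hgn) hsplit
  have hlc : (Od (nod x)).leadingCoeff ^ n = ((Od (nod x)).leadingCoeff ^ (n / 2)) ^ 2 := by
    rw [leadingCoeff, hdeg, htop]
    split_ifs with h
    · rw [← pow_mul, show n / 2 * 2 = n by omega]
    · simp
  have hG : ∀ r : L, (nod x).eval (1 + r) =
      (Ev (nod x)).eval (r ^ 2) + r * (Od (nod x)).eval (r ^ 2) := by
    intro r
    have h := congrArg (Polynomial.eval r) (comp_eq_Ev_Od (nod x))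
    rw [eval_comp, eval_add, eval_add, eval_mul, eval_X, eval_C, expand_eval, expand_eval] at h
    rw [add_comm 1 r]
    exact h
  have hone : ∀ o ∈ (Od (nod x)).roots, ∏ i, ((x i - 1) ^ 2 - o) = (Ev (nod x)).eval o ^ 2 := by
    intro o ho
    obtain ⟨r, hr⟩ := IsAlgClosed.exists_pow_nat_eq o two_pos
    have ho' : (Od (nod x)).eval o = 0 := (mem_roots'.1 ho).2
    have e : ∀ i, (x i - 1) ^ 2 - o = (1 + r - x i) * (1 + (-r) - x i) := by
      intro i; rw [← hr]; ring
    simp_rw [e]
    rw [Finset.prod_mul_distrib, ← eval_nod, ← eval_nod, hG, hG, neg_sq, hr, ho']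
    ring
  have heval : ∀ z : L, (Od (nod x)).eval z =
      (Od (nod x)).leadingCoeff * ((Od (nod x)).roots.map fun o => z - o).prod := by
    intro z
    conv_lhs => rw [hsplit.eq_prod_roots]
    rw [eval_mul, eval_C, eval_multiset_prod, Multiset.map_map]
    simp
  simp_rw [heval]
  rw [Finset.prod_mul_distrib, Finset.prod_const, Finset.card_univ, Fintype.card_fin, hlc, hres,
    mul_pow]
  congr 1
  rw [← Multiset.prod_map_pow]
  change (univ.val.map fun i => ((Od (nod x)).roots.map fun o => (x i - 1) ^ 2 - o).prod).prod = _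
  rw [Multiset.prod_map_prod_map]
  congr 1
  refine Multiset.map_congr rfl fun o ho => ?_
  exact hone o ho

/-- `∏_i g(x_i - 2) = (-2)^n * g(1) * rho ^ 2` if `g(-X) = (-1)^n g(X)`. -/
theorem prod_gsh {L : Type*} [Field L] [CharZero L] [IsAlgClosed L] {n : ℕ} (hn : 1 ≤ n)
    (x : Fin n → L) (hpar : (nod x).comp (-X) = (-1) ^ n * nod x) :
    ∏ i, (gsh (nod x)).eval (x i) = (-2) ^ n * (nod x).eval 1 * rho n (nod x) ^ 2 := by
  have hG : ∀ r : L, (nod x).eval (r + 1) =
      (Ev (nod x)).eval (r ^ 2) + r * (Od (nod x)).eval (r ^ 2) := by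
    intro r
    have h := congrArg (Polynomial.eval r) (comp_eq_Ev_Od (nod x))
    rwa [eval_comp, eval_add, eval_add, eval_mul, eval_X, eval_C, expand_eval, expand_eval] at h
  have h1 : ∀ i, (gsh (nod x)).eval (x i) =
      (-1) ^ n * ((-2) * (x i - 1) * (Od (nod x)).eval ((x i - 1) ^ 2)) := by
    intro i
    have ha : (nod x).eval (-(2 - x i)) = (-1) ^ n * (nod x).eval (2 - x i) := by
      have h := congrArg (Polynomial.eval (2 - x i)) hpar
      rw [eval_comp, eval_mul, eval_pow, eval_neg, eval_neg, eval_one, eval_X] at h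
      exact h
    have hb : (gsh (nod x)).eval (x i) = (nod x).eval (-(2 - x i)) := by
      rw [gsh, eval_comp, eval_sub, eval_X, eval_C]
      congr 1; ring
    have hc := hG (-(x i - 1))
    have hd := hG (x i - 1)
    rw [sub_add_cancel, eval_nod_self] at hd
    rw [hb, ha, show 2 - x i = -(x i - 1) + 1 by ring, hc, neg_sq]
    congr 1
    linear_combination -hd
  simp_rw [h1]
  rw [Finset.prod_mul_distrib, Finset.prod_mul_distrib, Finset.prod_mul_distrib, prod_Od hn x hpar,
    Finset.prod_const, Finset.prod_const, Finset.card_univ, Fintype.card_fin, eval_nod]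
  have h2 : ∏ i, (x i - 1) = (-1) ^ n * ∏ i, (1 - x i) := by
    have : ((-1 : L)) ^ n = ∏ _i : Fin n, (-1 : L) := by
      rw [Finset.prod_const, Finset.card_univ, Fintype.card_fin]
    rw [this, ← Finset.prod_mul_distrib]
    refine Finset.prod_congr rfl fun i _ => ?_
    ring
  have h3 : ((-1 : L) ^ n) ^ n * (-1) ^ n = 1 := by
    rw [← pow_mul, ← pow_add, ← Nat.mul_succ]
    exact (Nat.even_mul_succ_self n).neg_one_pow
  rw [h2]
  linear_combination ((-2) ^ n * (∏ i, (1 - x i)) * rho n (nod x) ^ 2) * h3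

/-- The determinant of multiplication by `g(X - 2)`. -/
theorem det_gsh {K : Type*} [Field K] [CharZero K] {n : ℕ} (hn : 1 ≤ n) {c : K[X]}
    (hc : c.Monic) (hd : c.natDegree = n / 2) (hs : c.Separable) (h0 : c.coeff 0 ≠ 0) :
    (Mmat n (gof n c) (gsh (gof n c))).det = (-2) ^ n * c.eval 1 * rho n (gof n c) ^ 2 := by
  let L := AlgebraicClosure K
  let φ : K →+* L := algebraMap K L
  have hgm := gof_monic n hc
  obtain ⟨x, hx, h1⟩ := exists_nod φ hgm (natDegree_gof hc hd) (separable_gof hc hd hs h0)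
  have hpar : (nod x).comp (-X) = (-1) ^ n * nod x := by
    rw [← h1, map_gof, gof_comp_neg]
  apply φ.injective
  have e1 : φ (Mmat n (gof n c) (gsh (gof n c))).det =
      (Mmat n (nod x) (gsh (nod x))).det := by
    have : (gsh (gof n c)).map φ = gsh (nod x) := by
      rw [gsh, gsh, Polynomial.map_comp, h1, Polynomial.map_sub, map_X, map_C, map_ofNat]
    rw [RingHom.map_det, RingHom.mapMatrix_apply, ← map_Mmat φ hgm, this, h1]
  have hEv : (Ev (gof n c)).map φ = Ev (nod x) := by
    rw [Ev, Ev, map_contract two_ne_zero, Polynomial.map_comp, h1]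
    simp
  have hOd : (Od (gof n c)).map φ = Od (nod x) := by
    rw [Od, Od, map_contract two_ne_zero]
    congr 1
    rw [← h1]
    ext k
    rw [coeff_map, coeff_divX, coeff_divX, ← coeff_map, Polynomial.map_comp]
    simp
  have e2 : φ (rho n (gof n c)) = rho n (nod x) := by
    rw [rho, rho, ← hEv, ← hOd, resultant_map_map]
  have e3 : φ (c.eval 1) = (nod x).eval 1 := by
    rw [← h1, eval_map, ← map_one φ, eval₂_at_apply]
    congr 1
    rw [gof, eval_mul, eval_pow, eval_X, one_pow, mul_one, expand_eval, one_pow]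
  rw [e1, det_Mmat_nod hx, prod_gsh hn x hpar, map_mul, map_mul, map_pow, map_pow, e2, e3, map_neg,
    map_ofNat]

end Pool.Agent.Lib.MP_12adaf_nt
end

section

/-!
# The square classes of `disc f` and `f(0) disc f`
-/

namespace Pool.Agent.Lib.MP_12adaf_nt

set_option linter.unusedSectionVars false
set_option linter.unusedVariables false

open Finset Polynomial

section Nod

variable {L : Type*} [Field L] [CharZero L] {n : ℕ} {x : Fin n → L}

/-- `2 Tr(X^k) = Tr-vector * X^k * C⁻¹ e0` for `X = M_w C`: multiply `C Λ - Λ C + 2 C = e0 ⊗ tr` by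
`X^k C⁻¹` and take traces; `Tr(X^k C⁻¹ Λ C) = Tr(X^k Λ)` because `M_w` commutes with `Λ`. -/
lemma trace_pow_XT (hx : Function.Injective x) (h2 : ∀ i j, 2 + x j - x i ≠ 0)
    (hC : (Cm n (nod x)).det ≠ 0) (w : L[X]) (k : ℕ) :
    2 * (XT n (nod x) w ^ k).trace = (fun k : Fin n => pS n (nod x) k) ⬝ᵥ
      ((XT n (nod x) w ^ k).mulVec ((Cm n (nod x))⁻¹.mulVec (e0 n))) := by
  have hcomm := Cm_comm hx h2
  have hMΛ := Mmat_commute_nod hx w X
  have hCu : IsUnit (Cm n (nod x)).det := isUnit_iff_ne_zero.2 hC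
  rw [XT]
  set C := Cm n (nod x) with hCdef
  set M := Mmat n (nod x) w with hM
  set Λ := Mmat n (nod x) X with hΛ
  have hCC : C⁻¹ * C = 1 := Matrix.nonsing_inv_mul _ hCu
  have hCC' : C * C⁻¹ = 1 := Matrix.mul_nonsing_inv _ hCu
  rw [Matrix.mulVec_mulVec, ← trace_mul_vecMulVec, ← hcomm, mul_add, mul_sub, Matrix.trace_add,
    Matrix.trace_sub]
  have h1 : ((M * C) ^ k * C⁻¹ * (C * Λ)).trace = ((M * C) ^ k * Λ).trace := by
    rw [mul_assoc, ← mul_assoc C⁻¹ C Λ, hCC, one_mul]
  have h3 : ((M * C) ^ k * C⁻¹ * ((2 : L) • C)).trace = 2 * ((M * C) ^ k).trace := by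
    rw [Matrix.mul_smul, Matrix.trace_smul, mul_assoc, hCC, mul_one, smul_eq_mul]
  have h4 : ((M * C) ^ k * C⁻¹ * (Λ * C)).trace = ((M * C) ^ k * Λ).trace := by
    rcases k with _ | k
    · rw [pow_zero, one_mul, one_mul, Matrix.trace_mul_comm, mul_assoc, hCC', mul_one]
    · have h5 : (M * C) ^ (k + 1) * C⁻¹ = (M * C) ^ k * M := by
        rw [pow_succ, mul_assoc, mul_assoc M C C⁻¹, hCC', mul_one]
      rw [h5]
      calc ((M * C) ^ k * M * (Λ * C)).trace = ((M * C) ^ k * Λ * (M * C)).trace := by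
            congr 1
            rw [mul_assoc, ← mul_assoc M Λ C, hMΛ, mul_assoc Λ M C, ← mul_assoc ((M * C) ^ k) Λ]
        _ = ((M * C) * ((M * C) ^ k * Λ)).trace := Matrix.trace_mul_comm _ _
        _ = ((M * C) ^ (k + 1) * Λ).trace := by rw [← mul_assoc (M * C), ← pow_succ']
  rw [h1, h3, h4, sub_self, zero_add]

private lemma det_Cm_ne_zero (hx : Function.Injective x) (h2 : ∀ i j, 2 + x j - x i ≠ 0) :
    (Cm n (nod x)).det ≠ 0 := by
  intro h0
  have h1 := det_Cm_nod hx h2
  rw [h0, zero_mul, discr_nod] at h1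
  have h3 : (Matrix.vandermonde x).det ≠ 0 := Matrix.det_vandermonde_ne_zero_iff.2 hx
  exact (mul_ne_zero (pow_ne_zero n (neg_ne_zero.2 one_ne_zero))
    (mul_ne_zero (pow_ne_zero _ (neg_ne_zero.2 one_ne_zero)) (pow_ne_zero 2 h3))) h1.symm

/-- With `A = Amat * Cm` (symmetric) and `A X = Xᵀ A` one gets `Kᵀ A⁻¹ K = 2 (Tr X^(i+j))` for
`K = Krt`, hence the relation of determinants. -/
theorem discr_XT_nod (hx : Function.Injective x) (hpar : (nod x).comp (-X) = (-1) ^ n * nod x)
    (h2 : ∀ i j, 2 + x j - x i ≠ 0) {w : L[X]} (hw : w.comp (-X) = w) {y : Fin n → L}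
    (hy : Function.Injective y) (hf : (XT n (nod x) w).charpoly = nod y) :
    2 ^ n * (nod y).discr * ((Amat n (nod x)).det * (Cm n (nod x)).det) =
      (Krt n (nod x) (XT n (nod x) w)).det ^ 2 := by
  have hC := det_Cm_ne_zero hx h2
  have hCu : IsUnit (Cm n (nod x)).det := isUnit_iff_ne_zero.2 hC
  have htr := trace_pow_XT hx h2 hC w
  have hAs := Amat_mul_Cm_symm hx hpar h2
  have hAts := Amat_transpose_nod hx hpar
  have hAM := Amat_mul_Mmat_nod hx hpar w
  rw [hw] at hAM
  have hAe := Amat_e0 n (nod x)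
  have hXdef : XT n (nod x) w = Mmat n (nod x) w * Cm n (nod x) := rfl
  set C := Cm n (nod x) with hCdef
  set M := Mmat n (nod x) w with hM
  set B := Amat n (nod x) with hB
  set X' := XT n (nod x) w with hX'
  set v : Fin n → L := fun k : Fin n => pS n (nod x) k with hv
  set u : Fin n → L := C⁻¹.mulVec (e0 n) with hu
  have hCC' : C * C⁻¹ = 1 := Matrix.mul_nonsing_inv _ hCu
  have hAu : (B * C).mulVec u = v := by
    rw [hu, Matrix.mulVec_mulVec, mul_assoc, hCC', mul_one, hAe]
  clear_value u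
  have hAX : (B * C) * X' = X'.transpose * (B * C) := by
    have h3 : C.transpose * B = B * C := by
      rw [← hAs, Matrix.transpose_mul, hAts]
    rw [hXdef, Matrix.transpose_mul]
    calc B * C * (M * C) = C.transpose * (B * M) * C := by
          rw [← h3]; simp only [mul_assoc]
      _ = C.transpose * (M.transpose * B) * C := by rw [hAM]
      _ = C.transpose * M.transpose * (B * C) := by simp only [mul_assoc]
  have hAXk : ∀ k : ℕ, (B * C) * X' ^ k = X'.transpose ^ k * (B * C) := by
    intro k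
    induction k with
    | zero => rw [pow_zero, pow_zero, one_mul, mul_one]
    | succ k ih => rw [pow_succ, ← mul_assoc, ih, mul_assoc, hAX, ← mul_assoc, ← pow_succ]
  -- the matrix with columns `X' ^ j u`
  let N : Matrix (Fin n) (Fin n) L := Matrix.of fun i j => ((X' ^ (j : ℕ)).mulVec u) i
  have hK : Krt n (nod x) X' = (B * C) * N := by
    ext i j
    have h3 : ((B * C) * N) i j = ((B * C).mulVec ((X' ^ (j : ℕ)).mulVec u)) i := rfl
    rw [h3, Matrix.mulVec_mulVec, hAXk, ← Matrix.mulVec_mulVec, hAu]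
    rfl
  have hform : N.transpose * (B * C) * N =
      (2 : L) • ((Matrix.vandermonde y).transpose * Matrix.vandermonde y) := by
    ext i j
    have h3 : (N.transpose * (B * C) * N) i j =
        ((X' ^ (i : ℕ)).mulVec u) ⬝ᵥ ((B * C).mulVec ((X' ^ (j : ℕ)).mulVec u)) := by
      rw [mul_assoc, Matrix.mul_apply, dotProduct]
      refine Finset.sum_congr rfl fun k _ => ?_
      rfl
    rw [h3, Matrix.mulVec_mulVec, hAXk, ← Matrix.mulVec_mulVec, hAu, ← Matrix.transpose_pow,
      dotProduct_comm, dot_transpose, Matrix.mulVec_mulVec, ← pow_add, ← htr,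
      trace_pow_of_charpoly hy hf, Matrix.smul_apply, smul_eq_mul, Matrix.mul_apply]
    congr 1
    refine Finset.sum_congr rfl fun k _ => ?_
    rw [Matrix.transpose_apply, Matrix.vandermonde_apply, Matrix.vandermonde_apply, ← pow_add,
      add_comm]
  have hdet := congrArg Matrix.det hform
  rw [Matrix.det_mul, Matrix.det_mul, Matrix.det_transpose, Matrix.det_smul, Matrix.det_mul,
    Matrix.det_mul, Matrix.det_transpose, Fintype.card_fin] at hdet
  rw [hK, Matrix.det_mul, Matrix.det_mul, discr_nod]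
  linear_combination (-(B.det * C.det)) * hdet

end Nod

section Map

variable {K L : Type*} [Field K] [Field L] (φ : K →+* L) {n : ℕ}

lemma map_gsh {R S : Type*} [CommRing R] [CommRing S] (φ : R →+* S) (g : R[X]) :
    (gsh g).map φ = gsh (g.map φ) := by
  rw [gsh, gsh, Polynomial.map_comp, Polynomial.map_sub, map_X, map_C, map_ofNat]

private lemma map_Shm {R S : Type*} [CommRing R] [CommRing S] (φ : R →+* S) (n : ℕ) :
    (Shm R n).map φ = Shm S n := by
  ext i j
  simp only [Shm, Matrix.map_apply, Matrix.of_apply]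
  rw [← coeff_map, Polynomial.map_pow, Polynomial.map_sub, map_X, map_C, map_ofNat]

lemma map_Cm {g : K[X]} (hg : g.Monic) : (Cm n g).map φ = Cm n (g.map φ) := by
  rw [Cm, Cm, ← map_gsh, Polynomial.derivative_map, map_Mmat φ hg, map_Mmat φ hg,
    ← map_inv_matrix, ← map_Shm φ n]
  ext i j
  simp only [Matrix.map_apply, Matrix.neg_apply, Matrix.mul_apply, map_neg, map_sum, map_mul]

lemma map_XT {g : K[X]} (hg : g.Monic) (w : K[X]) :
    (XT n g w).map φ = XT n (g.map φ) (w.map φ) := by
  rw [XT, XT, Matrix.map_mul, map_Cm φ hg, map_Mmat φ hg]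

lemma map_Krt {R S : Type*} [CommRing R] [CommRing S] (φ : R →+* S) {g : R[X]} (hg : g.Monic)
    (M : Matrix (Fin n) (Fin n) R) : (Krt n g M).map φ = Krt n (g.map φ) (M.map φ) := by
  ext i j
  simp only [Krt, Matrix.map_apply, Matrix.of_apply]
  have h1 : (M.map φ).transpose ^ (j : ℕ) = (M.transpose ^ (j : ℕ)).map φ := by
    rw [Matrix.map_pow, Matrix.transpose_map]
  rw [h1]
  simp only [Matrix.mulVec, dotProduct, map_sum, map_mul, Matrix.map_apply, map_pS φ hg]

private lemma map_Od {R S : Type*} [CommRing R] [CommRing S] (φ : R →+* S) (g : R[X]) :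
    (Od g).map φ = Od (g.map φ) := by
  have h1 : (g.map φ).comp (X + C 1) = (g.comp (X + C 1)).map φ := by
    rw [Polynomial.map_comp]; simp
  rw [Od, Od, h1]
  ext i
  rw [coeff_map, coeff_contract two_ne_zero, coeff_contract two_ne_zero, coeff_divX, coeff_divX,
    coeff_map]

private lemma map_Ev {R S : Type*} [CommRing R] [CommRing S] (φ : R →+* S) (g : R[X]) :
    (Ev g).map φ = Ev (g.map φ) := by
  have h1 : (g.map φ).comp (X + C 1) = (g.comp (X + C 1)).map φ := by
    rw [Polynomial.map_comp]; simp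
  rw [Ev, Ev, h1]
  ext i
  rw [coeff_map, coeff_contract two_ne_zero, coeff_contract two_ne_zero, coeff_map]

lemma map_rho {R S : Type*} [CommRing R] [CommRing S] (φ : R →+* S) (g : R[X]) :
    φ (rho n g) = rho n (g.map φ) := by
  rw [rho, rho, ← map_Od, ← map_Ev, resultant_map_map]

lemma map_LT {f : K[X]} (hf : f.Monic) : (LT n f).map φ = LT n (f.map φ) := by
  have h1 : Mmat n (f.map φ) X = (Mmat n f X).map φ := by
    have := map_Mmat φ hf n X
    rwa [Polynomial.map_X] at this
  rw [LT, LT, ← map_Ymat φ hf, h1]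
  ext i j
  simp only [Matrix.map_apply, Matrix.smul_apply, Matrix.mul_apply, smul_eq_mul, map_mul, map_sum,
    map_ofNat]

/-- Naturality of the parametrisation. -/
theorem map_fT {c p : K[X]} (hc : c.Monic) :
    (fT n c p).map φ = fT n (c.map φ) (p.map φ) ∧ φ (k1T n c p) = k1T n (c.map φ) (p.map φ) ∧
      φ (k2T n c p) = k2T n (c.map φ) (p.map φ) := by
  have hg : (gof n c).Monic := gof_monic n hc
  have h1 : (XT n (gof n c) (expand K 2 p)).map φ =
      XT n (gof n (c.map φ)) (expand L 2 (p.map φ)) := by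
    rw [map_XT φ hg, map_gof, map_expand]
  have h2 : φ (aT n c) = aT n (c.map φ) := by
    rw [aT, aT, discr_map_monic φ hc, coeff_map, map_mul, map_mul, map_pow, map_pow, map_ofNat]
  have h3 : φ (Krt n (gof n c) (XT n (gof n c) (expand K 2 p))).det =
      (Krt n (gof n (c.map φ)) (XT n (gof n (c.map φ)) (expand L 2 (p.map φ)))).det := by
    rw [RingHom.map_det, RingHom.mapMatrix_apply, map_Krt φ hg, h1, map_gof]
  refine ⟨?_, ?_, ?_⟩
  · rw [fT, fT, ← h1, Matrix.charpoly_map]
  · rw [k1T, k1T, map_div₀, map_mul, map_mul, map_pow, h2, h3, map_rho, map_gof, coeff_map]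
  · rw [k2T, k2T, map_div₀, map_mul, map_mul, map_mul, map_pow, h2, h3, coeff_map, map_ofNat,
      RingHom.map_det, RingHom.mapMatrix_apply, ← map_Mmat φ hc]

end Map

/-- `det Amat (gof n c) = c(0) * aT ^ 2` (`det_Amat_nod` and `discr_gof`). -/
lemma det_Amat_gof {K : Type*} [Field K] [CharZero K] {n : ℕ} {c : K[X]} (hc : c.Monic)
    (hd : c.natDegree = n / 2) (hs : c.Separable) (h0 : c.coeff 0 ≠ 0) :
    (Amat n (gof n c)).det = c.coeff 0 * aT n c ^ 2 := by
  let L := AlgebraicClosure K
  let φ : K →+* L := algebraMap K L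
  have : CharZero L := charZero_of_injective_algebraMap (algebraMap K L).injective
  have hg := gof_monic n hc
  obtain ⟨x, hx, h1⟩ := exists_nod φ hg (natDegree_gof hc hd) (separable_gof hc hd hs h0)
  rw [aT, ← discr_gof hc hd]
  apply φ.injective
  rw [RingHom.map_det, RingHom.mapMatrix_apply, map_Amat φ hg, h1, det_Amat_nod hx, map_mul,
    ← discr_map_monic φ hg, h1]
  simp

private lemma prod_roots_nod {L M : Type*} [Field L] [CommMonoid M] {ι : Type*} [Fintype ι]
    (x : ι → L) (F : L → M) : ((nod x).roots.map F).prod = ∏ i, F (x i) := by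
  have h1 : nod x = (((Finset.univ : Finset ι).val.map x).map (fun a => X - C a)).prod := by
    rw [Multiset.map_map]
    rfl
  rw [h1, roots_multiset_prod_X_sub_C, Multiset.map_map]
  rfl

/-- The norm of `p(X^2)` in `K[X]/gof n c`. -/
lemma det_expand {K : Type*} [Field K] [CharZero K] {n : ℕ} {c : K[X]} (hc : c.Monic)
    (hd : c.natDegree = n / 2) (hs : c.Separable) (h0 : c.coeff 0 ≠ 0) (p : K[X]) :
    (Mmat n (gof n c) (expand K 2 p)).det = (Mmat (n / 2) c p).det ^ 2 * p.coeff 0 ^ (n % 2) := by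
  let L := AlgebraicClosure K
  let φ : K →+* L := algebraMap K L
  have : CharZero L := charZero_of_injective_algebraMap (algebraMap K L).injective
  have hg := gof_monic n hc
  obtain ⟨x, hx, h1⟩ := exists_nod φ hg (natDegree_gof hc hd) (separable_gof hc hd hs h0)
  obtain ⟨t, ht, h2⟩ := exists_nod φ hc hd hs
  apply φ.injective
  rw [map_mul, map_pow, map_pow, RingHom.map_det, RingHom.map_det, RingHom.mapMatrix_apply,
    RingHom.mapMatrix_apply, ← map_Mmat φ hg, ← map_Mmat φ hc, h1, h2, det_Mmat_nod hx,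
    det_Mmat_nod ht, map_expand]
  have hsq : ∀ j, ∃ s : L, s ^ 2 = t j := fun j => IsAlgClosed.exists_pow_nat_eq (t j) two_pos
  choose s hs' using hsq
  have h3 : nod x = nod s * nod (fun j => - s j) * X ^ (n % 2) := by
    rw [← h1, map_gof, h2, gof, nod, nod, nod, map_prod, ← Finset.prod_mul_distrib]
    congr 1
    refine Finset.prod_congr rfl fun j _ => ?_
    rw [map_sub, expand_X, expand_C, ← hs' j, C_neg, C_pow]
    ring
  have h4 : ∀ z : L, (expand L 2 (p.map φ)).eval z = (p.map φ).eval (z ^ 2) := fun z => by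
    rw [expand_eval]
  have h5 : (nod s * nod (fun j => - s j) * X ^ (n % 2) : L[X]) ≠ 0 := by
    rw [← h3]; exact (nod_monic x).ne_zero
  have h6 : (nod s * nod (fun j => - s j) : L[X]) ≠ 0 := left_ne_zero_of_mul h5
  rw [← prod_roots_nod x (fun z => (expand L 2 (p.map φ)).eval z), h3, roots_mul h5, roots_mul h6,
    Multiset.map_add, Multiset.map_add, Multiset.prod_add, Multiset.prod_add, prod_roots_nod,
    prod_roots_nod, roots_X_pow, Multiset.map_nsmul, Multiset.prod_nsmul, Multiset.map_singleton,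
    Multiset.prod_singleton, h4, zero_pow two_ne_zero, ← coeff_zero_eq_eval_zero, coeff_map]
  congr 1
  rw [sq, ← Finset.prod_mul_distrib, ← Finset.prod_mul_distrib]
  refine Finset.prod_congr rfl fun j _ => ?_
  rw [h4, h4, neg_sq, hs']

/-- The main identities.  If `det (Mmat gsh) = 0` then `Cm = 0` and `fT = X ^ n` is not
separable. -/
theorem discr_fT {K : Type*} [Field K] [CharZero K] {n : ℕ} (hn : 2 ≤ n) {c p : K[X]}
    (hc : c.Monic) (hd : c.natDegree = n / 2) (hs : c.Separable) (h0 : c.coeff 0 ≠ 0)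
    (hf : (fT n c p).Separable) :
    (fT n c p).discr = c.eval 1 * k1T n c p ^ 2 ∧
      (fT n c p).coeff 0 * (fT n c p).discr =
        ((-2 * p.coeff 0) ^ (n % 2) * c.coeff 0) * k2T n c p ^ 2 := by
  let L := AlgebraicClosure K
  let φ : K →+* L := algebraMap K L
  have : CharZero L := charZero_of_injective_algebraMap (algebraMap K L).injective
  have hg := gof_monic n hc
  have hgs := separable_gof hc hd hs h0
  have hgd := natDegree_gof hc hd
  -- the norm of `gsh` is not zero
  have hns : (Mmat n (gof n c) (gsh (gof n c))).det ≠ 0 := by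
    intro h
    have h1 : (Mmat n (gof n c) (gsh (gof n c)))⁻¹ = 0 := by
      rw [Matrix.nonsing_inv_apply_not_isUnit _ (by rw [h]; exact not_isUnit_zero)]
    have h2 : XT n (gof n c) (expand K 2 p) = 0 := by
      rw [XT, Cm, h1, zero_mul, zero_mul, neg_zero, mul_zero]
    rw [fT, h2, Matrix.charpoly_zero, Fintype.card_fin] at hf
    have h3 : IsUnit (X : K[X]) ∨ n ≤ 1 := by
      have h4 := hf.squarefree
      by_contra hcon
      push Not at hcon
      apply hcon.1
      apply h4
      exact ⟨X ^ (n - 2), by rw [← sq, ← pow_add]; congr 1; omega⟩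
    rcases h3 with h3 | h3
    · exact not_isUnit_X h3
    · omega
  have hgsh := det_gsh (by omega : 1 ≤ n) hc hd hs h0
  have hAm := det_Amat_gof hc hd hs h0
  have hex := det_expand hc hd hs h0 p
  obtain ⟨x, hx, h1⟩ := exists_nod φ hg hgd hgs
  have hfm : (fT n c p).Monic := Matrix.charpoly_monic _
  have hfd : (fT n c p).natDegree = n := by
    unfold fT
    rw [Matrix.charpoly_natDegree_eq_dim, Fintype.card_fin]
  obtain ⟨y, hy, h2⟩ := exists_nod φ hfm hfd hf
  have hpar : (nod x).comp (-X) = (-1) ^ n * nod x := by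
    have := congrArg (Polynomial.map φ) (gof_comp_neg n c)
    rw [Polynomial.map_comp, Polynomial.map_neg, Polynomial.map_X, Polynomial.map_mul,
      Polynomial.map_pow, Polynomial.map_neg, Polynomial.map_one, h1] at this
    exact this
  have hij : ∀ i j, 2 + x j - x i ≠ 0 := by
    rw [← det_gsh_ne_zero_iff hx, ← h1, ← map_gsh, map_Mmat φ hg]
    have h3 := (map_ne_zero φ).2 hns
    rwa [RingHom.map_det, RingHom.mapMatrix_apply] at h3
  have hw : ((expand K 2 p).map φ).comp (-X) = (expand K 2 p).map φ := by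
    rw [map_expand, expand_two_comp_neg]
  have hch : (XT n (nod x) ((expand K 2 p).map φ)).charpoly = nod y := by
    rw [← h2, fT, ← Matrix.charpoly_map, map_XT φ hg, h1]
  have hd1 := discr_XT_nod hx hpar hij hw hy hch
  have hd2 := det_Cm_nod hx hij
  rw [← det_Amat_nod hx] at hd2
  -- back to `K`
  have e1 : 2 ^ n * (fT n c p).discr * ((Amat n (gof n c)).det * (Cm n (gof n c)).det) =
      (Krt n (gof n c) (XT n (gof n c) (expand K 2 p))).det ^ 2 := by
    apply φ.injective
    rw [map_mul, map_mul, map_mul, map_pow, map_pow, map_ofNat, ← discr_map_monic φ hfm, h2,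
      RingHom.map_det, RingHom.map_det, RingHom.map_det, RingHom.mapMatrix_apply,
      RingHom.mapMatrix_apply, RingHom.mapMatrix_apply, map_Amat φ hg, map_Cm φ hg, map_Krt φ hg,
      map_XT φ hg, h1]
    exact hd1
  have e2 : (Cm n (gof n c)).det * (Mmat n (gof n c) (gsh (gof n c))).det =
      (-1) ^ n * (Amat n (gof n c)).det := by
    apply φ.injective
    rw [map_mul, map_mul, map_pow, map_neg, map_one, RingHom.map_det, RingHom.map_det,
      RingHom.map_det, RingHom.mapMatrix_apply, RingHom.mapMatrix_apply, RingHom.mapMatrix_apply,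
      map_Amat φ hg, map_Cm φ hg, ← map_Mmat φ hg, map_gsh, h1]
    exact hd2
  have e3 : (fT n c p).coeff 0 = (-1) ^ n * ((Mmat n (gof n c) (expand K 2 p)).det *
      (Cm n (gof n c)).det) := by
    have h3 := Matrix.det_eq_sign_charpoly_coeff (XT n (gof n c) (expand K 2 p))
    rw [Fintype.card_fin, XT, Matrix.det_mul] at h3
    rw [h3, ← mul_assoc, ← mul_pow, neg_one_mul, neg_neg, one_pow, one_mul]
    rfl
  rw [hAm] at e1 e2
  rw [hgsh] at e2
  rw [hex] at e3
  have ha : aT n c ≠ 0 := by
    intro h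
    have h3 : (Amat n (gof n c)).det = 0 := by rw [hAm, h]; ring
    have h4 := det_Amat_nod hx
    rw [← h1, ← map_Amat φ hg, ← RingHom.mapMatrix_apply, ← RingHom.map_det, h3, map_zero, h1,
      discr_nod] at h4
    have h5 : (Matrix.vandermonde x).det ≠ 0 := Matrix.det_vandermonde_ne_zero_iff.2 hx
    exact (mul_ne_zero (pow_ne_zero _ (neg_ne_zero.2 one_ne_zero)) (pow_ne_zero 2 h5)) h4.symm
  set D := (fT n c p).discr with hD
  set K1 := (Krt n (gof n c) (XT n (gof n c) (expand K 2 p))).det with hK1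
  set Cd := (Cm n (gof n c)).det with hCd
  set a := aT n c with haT
  set c0 := c.coeff 0 with hc0
  set r := rho n (gof n c) with hr
  have hneg : ((-1 : K)) ^ n * (-1) ^ n = 1 := by rw [← mul_pow]; simp
  have e2' : Cd * (2 ^ n * c.eval 1 * r ^ 2) = c0 * a ^ 2 := by
    have h3 : ((-2 : K)) ^ n = (-1) ^ n * 2 ^ n := by rw [← mul_pow]; norm_num
    rw [h3] at e2
    have h4 : ((-1 : K)) ^ n * (Cd * (2 ^ n * c.eval 1 * r ^ 2)) = (-1) ^ n * (c0 * a ^ 2) := by
      linear_combination e2
    exact mul_left_cancel₀ (pow_ne_zero n (neg_ne_zero.2 one_ne_zero)) h4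
  constructor
  · rw [k1T, div_pow, mul_div_assoc', eq_div_iff (pow_ne_zero 2 (mul_ne_zero h0 (pow_ne_zero 2 ha)))]
    have h3 : D * (c0 * a ^ 2) ^ 2 = c.eval 1 * (K1 * r) ^ 2 := by
      linear_combination (c.eval 1 * r ^ 2) * e1 - (D * c0 * a ^ 2) * e2'
    exact h3
  · rw [e3, k2T, div_pow, mul_div_assoc', eq_div_iff (pow_ne_zero 2
      (mul_ne_zero (mul_ne_zero (pow_ne_zero _ two_ne_zero) h0) ha))]
    have h3 : (2 : K) ^ (n / 2 + n % 2) * 2 ^ (n / 2 + n % 2) = 2 ^ n * 2 ^ (n % 2) := by
      rw [← pow_add, ← pow_add]; congr 1; omega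
    have h4 : ((-2 : K) * p.coeff 0) ^ (n % 2) = (-1) ^ n * 2 ^ (n % 2) * p.coeff 0 ^ (n % 2) := by
      rw [← neg_one_pow_mod_two n, ← mul_pow, ← mul_pow]; ring
    rw [h4]
    change _ = _ * ((Mmat (n / 2) c p).det * K1) ^ 2
    linear_combination ((-1) ^ n * (Mmat (n / 2) c p).det ^ 2 * p.coeff 0 ^ (n % 2) * Cd * D *
      c0 ^ 2 * a ^ 2) * h3 + ((-1) ^ n * (Mmat (n / 2) c p).det ^ 2 * p.coeff 0 ^ (n % 2) *
      2 ^ (n % 2) * c0) * e1

end Pool.Agent.Lib.MP_12adaf_nt
end
end

section

section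

/-!
# The parameters of a polynomial
-/

namespace Pool.Agent.Lib.MP_12adaf_nt

set_option linter.unusedSectionVars false
set_option linter.unusedVariables false

open Finset Polynomial

/-- The matrix `2 y_i/(y_i - y_j)` (zero on the diagonal). -/
def Lx {L : Type*} [Field L] {n : ℕ} (y : Fin n → L) : Matrix (Fin n) (Fin n) L :=
  Matrix.of fun i j => 2 * y i / (y i - y j)

section Nod

variable {L : Type*} [Field L] [CharZero L] {n : ℕ} {x y : Fin n → L}

/-- `LT` is the matrix of `Lx` in the basis of powers (`vandermonde_mul_Ymat`). -/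
lemma vandermonde_mul_LT (hy : Function.Injective y) :
    Matrix.vandermonde y * LT n (nod y) = Lx y * Matrix.vandermonde y := by
  have h1 : Matrix.vandermonde y * Mmat n (nod y) X = Matrix.diagonal y * Matrix.vandermonde y := by
    have := vandermonde_mul_Mmat y X
    simpa only [eval_X] using this
  have h2 : Lx y = (2 : L) • (Matrix.diagonal y * Cx y) := by
    ext i j
    rw [Matrix.smul_apply, Matrix.diagonal_mul, Lx, Cx, Matrix.of_apply, Matrix.of_apply,
      smul_eq_mul]
    ring
  rw [LT, Matrix.mul_smul, ← mul_assoc, h1, mul_assoc, vandermonde_mul_Ymat hy, h2,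
    Matrix.smul_mul, mul_assoc]

/-- `X Λ - Λ X + 2 X = 2 (X e0) ⊗ Tr` (from `Ymat_comm_nod`). -/
lemma LT_comm_nod (hy : Function.Injective y) :
    Mmat n (nod y) X * LT n (nod y) - LT n (nod y) * Mmat n (nod y) X +
      (2 : L) • Mmat n (nod y) X =
      Matrix.vecMulVec ((2 : L) • (Mmat n (nod y) X).mulVec (e0 n))
        (fun k : Fin n => pS n (nod y) k) := by
  have h := Ymat_comm_nod hy
  rw [Matrix.smul_vecMulVec, ← Matrix.mul_vecMulVec, ← h, LT, Matrix.mul_smul, Matrix.smul_mul,
    ← smul_sub, ← smul_add]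
  congr 1
  rw [mul_add, mul_sub, mul_one, mul_assoc (Mmat n (nod y) X) (Ymat n (nod y))]

private lemma HLT_nod (hy : Function.Injective y) :
    Hmat n (nod y) * LT n (nod y) =
      -(((Ymat n (nod y)) * ((2 : L) • Mmat n (nod y) X)).transpose * Hmat n (nod y)) := by
  have h1 := Hmat_mul_Mmat_nod hy X
  have h2 := Hmat_mul_Ymat_nod hy
  rw [LT, Matrix.mul_smul, ← mul_assoc, h1, mul_assoc, h2, Matrix.mul_smul, Matrix.transpose_smul,
    Matrix.transpose_mul, Matrix.smul_mul, mul_neg, smul_neg, mul_assoc]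

private lemma LT_eq (n : ℕ) (f : L[X]) : LT n f = ((2 : L) • Mmat n f X) * Ymat n f := by
  rw [LT, Matrix.smul_mul]

/-- `Λᵀ H = - H (2 C X)` and `charpoly (C X) = charpoly (X C)`. -/
lemma parity_LT_nod (hy : Function.Injective y) :
    (LT n (nod y)).charpoly.comp (-X) = (-1) ^ n * (LT n (nod y)).charpoly := by
  have h1 : (- LT n (nod y)).charpoly = (LT n (nod y)).charpoly := by
    have h3 : (LT n (nod y)).charpoly =
        (((Ymat n (nod y)) * ((2 : L) • Mmat n (nod y) X)).transpose).charpoly := by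
      rw [Matrix.charpoly_transpose, Matrix.charpoly_mul_comm, ← LT_eq]
    rw [h3]
    refine charpoly_conj (isUnit_Hmat_nod hy) ?_
    rw [mul_neg, HLT_nod hy, neg_neg]
  rw [charpoly_neg] at h1
  have h2 : ((-1 : L[X])) ^ n * (-1) ^ n = 1 := by
    rw [← mul_pow]; simp
  calc (LT n (nod y)).charpoly.comp (-X)
      = (-1) ^ n * ((-1) ^ n * (LT n (nod y)).charpoly.comp (-X)) := by
        rw [← mul_assoc, h2, one_mul]
    _ = _ := by rw [h1]

/-- `Tr (X Λ^k) = (-1)^k Tr (X Λ^k)`: transpose and use `Xᵀ H = H X`, `Cᵀ H = - H C`. -/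
lemma trace_LT_nod (hy : Function.Injective y) (k : ℕ) :
    (Mmat n (nod y) X * LT n (nod y) ^ k).trace =
      (-1) ^ k * (Mmat n (nod y) X * LT n (nod y) ^ k).trace := by
  have hH := isUnit_Hmat_nod hy
  have h1 := Hmat_mul_Mmat_nod hy X
  have h2 := HLT_nod hy
  have hZ := LT_eq n (nod y)
  set H := Hmat n (nod y) with hHdef
  set M := Mmat n (nod y) X with hM
  set Y := Ymat n (nod y) with hY
  set Z := LT n (nod y) with hZdef
  set W := Y * ((2 : L) • M) with hW
  have h3 : ∀ k : ℕ, H * Z ^ k = (-1 : L) ^ k • ((W ^ k).transpose * H) := by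
    intro k
    induction k with
    | zero => rw [pow_zero, pow_zero, pow_zero, Matrix.transpose_one, one_mul, mul_one, one_smul]
    | succ k ih =>
      rw [pow_succ, ← mul_assoc, ih, Matrix.smul_mul, mul_assoc, h2, mul_neg, smul_neg, pow_succ,
        mul_neg_one, neg_smul, ← mul_assoc, ← Matrix.transpose_mul, ← pow_succ']
  have h4 : ∀ k : ℕ, M * W ^ k = Z ^ k * M := by
    intro k
    induction k with
    | zero => rw [pow_zero, pow_zero, one_mul, mul_one]
    | succ k ih =>
      have h5 : M * W = Z * M := by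
        rw [hW, hZ, Matrix.mul_smul, Matrix.mul_smul, Matrix.smul_mul, Matrix.smul_mul, mul_assoc]
      rw [pow_succ, ← mul_assoc, ih, mul_assoc, h5, ← mul_assoc, ← pow_succ]
  have h5 : H * (M * Z ^ k) = ((-1 : L) ^ k • (W ^ k * M).transpose) * H := by
    rw [← mul_assoc, h1, mul_assoc, h3, Matrix.mul_smul, ← mul_assoc, Matrix.transpose_mul,
      Matrix.smul_mul]
  have h6 := trace_conj hH h5
  have h7 : (W ^ k * M).trace = (M * Z ^ k).trace := by
    rw [Matrix.trace_mul_comm, h4, Matrix.trace_mul_comm]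
  rw [Matrix.trace_smul, Matrix.trace_transpose, smul_eq_mul, h7] at h6
  exact h6

end Nod

/-- The even function `w` attached to `f`: `Tr_B(w Λ^k) = 2 Tr(X Λ^k)` for all `k`. -/
noncomputable def wof {K : Type*} [Field K] (n : ℕ) (f : K[X]) : K[X] :=
  toPoly ((Hmat n (LT n f).charpoly)⁻¹.mulVec fun k : Fin n =>
    2 * (Mmat n f X * LT n f ^ (k : ℕ)).trace)

private lemma map_wof {K L : Type*} [Field K] [Field L] (φ : K →+* L) {n : ℕ} {f : K[X]}
    (hf : f.Monic) : (wof n f).map φ = wof n (f.map φ) := by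
  rw [wof, wof, map_toPoly]
  congr 1
  ext i
  have h1 : Mmat n (f.map φ) X = (Mmat n f X).map φ := by
    have := map_Mmat φ hf n X
    rwa [Polynomial.map_X] at this
  have h2 : ∀ k : ℕ, (Mmat n (f.map φ) X * LT n (f.map φ) ^ k).trace =
      φ ((Mmat n f X * LT n f ^ k).trace) := by
    intro k
    rw [h1, ← map_LT φ hf, ← Matrix.map_pow, ← Matrix.map_mul, Matrix.trace, Matrix.trace, map_sum]
    rfl
  simp only [h2]
  rw [← map_LT φ hf, Matrix.charpoly_map, ← map_Hmat φ (Matrix.charpoly_monic _),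
    ← map_inv_matrix]
  simp only [Matrix.mulVec, dotProduct, Matrix.map_apply, map_sum, map_mul, map_ofNat]

section Nod2

variable {L : Type*} [Field L] [CharZero L] {n : ℕ} {x y : Fin n → L}

/-- a sum over the roots of a polynomial with parity -/
private lemma sum_neg_nod (hx : Function.Injective x) (hpar : (nod x).comp (-X) = (-1) ^ n * nod x)
    (F : L → L) : ∑ i, F (- x i) = ∑ i, F (x i) := by
  have h1 : ∀ z : Fin n → L, ((nod z).roots.map F).sum = ∑ i, F (z i) := by
    intro z
    have h2 : nod z = (((Finset.univ : Finset (Fin n)).val.map z).map (fun a => X - C a)).prod := by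
      rw [Multiset.map_map]
      rfl
    rw [h2, roots_multiset_prod_X_sub_C, Multiset.map_map]
    rfl
  rw [← h1 x, ← nod_neg_of_parity hpar, h1]

/-- the values of `w` at the roots, given by the trace conditions -/
private lemma wof_trace (hx : Function.Injective x) (hG : (LT n (nod y)).charpoly = nod x)
    (j : Fin n) : ∑ i, x i ^ (j : ℕ) * (wof n (nod y)).eval (x i) =
      2 * (Mmat n (nod y) X * LT n (nod y) ^ (j : ℕ)).trace := by
  have hH : IsUnit (Hmat n (nod x)).det := isUnit_Hmat_nod hx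
  have h1 : (Hmat n (nod x)).mulVec ((Hmat n (nod x))⁻¹.mulVec fun k : Fin n =>
      2 * (Mmat n (nod y) X * LT n (nod y) ^ (k : ℕ)).trace) = fun k : Fin n =>
      2 * (Mmat n (nod y) X * LT n (nod y) ^ (k : ℕ)).trace := by
    rw [Matrix.mulVec_mulVec, Matrix.mul_nonsing_inv _ hH, Matrix.one_mulVec]
  have h2 := congrFun h1 j
  rw [← vandermonde_transpose_mul hx, ← Matrix.mulVec_mulVec] at h2
  rw [← h2, Matrix.mulVec, dotProduct]
  refine Finset.sum_congr rfl fun i _ => ?_
  rw [Matrix.transpose_apply, Matrix.vandermonde_apply]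
  congr 1
  rw [wof, eval_of_degree_lt (degree_toPoly_lt _), hG, Matrix.mulVec, dotProduct]
  refine Finset.sum_congr rfl fun k _ => ?_
  rw [coeff_toPoly, Matrix.vandermonde_apply, vandermonde_transpose_mul hx]

/-- a vector killed by all power sums with distinct nodes is zero -/
private lemma eq_zero_of_pow_sums (hx : Function.Injective x) {a : Fin n → L}
    (h : ∀ j : Fin n, ∑ i, x i ^ (j : ℕ) * a i = 0) : a = 0 := by
  have h1 : (Matrix.vandermonde x).transpose.mulVec a = 0 := by
    ext j
    rw [Matrix.mulVec, dotProduct, Pi.zero_apply, ← h j]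
    refine Finset.sum_congr rfl fun i _ => ?_
    rw [Matrix.transpose_apply, Matrix.vandermonde_apply]
  have h2 : IsUnit (Matrix.vandermonde x).transpose.det := by
    rw [Matrix.det_transpose]; exact isUnit_vandermonde hx
  have h3 := congrArg (fun v => (Matrix.vandermonde x).transpose⁻¹.mulVec v) h1
  simp only [Matrix.mulVec_mulVec, Matrix.nonsing_inv_mul _ h2, Matrix.one_mulVec,
    Matrix.mulVec_zero] at h3
  exact h3

private lemma wof_even (hy : Function.Injective y) (hx : Function.Injective x)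
    (hG : (LT n (nod y)).charpoly = nod x) :
    (wof n (nod y)).comp (-X) = wof n (nod y) := by
  have hpar : (nod x).comp (-X) = (-1) ^ n * nod x := by
    rw [← hG]; exact parity_LT_nod hy
  have h1 : (fun i => (wof n (nod y)).eval (- x i) - (wof n (nod y)).eval (x i)) = 0 := by
    apply eq_zero_of_pow_sums hx
    intro j
    simp only [mul_sub, Finset.sum_sub_distrib]
    rw [wof_trace hx hG j]
    have h2 := sum_neg_nod hx hpar (fun z => (-z) ^ (j : ℕ) * (wof n (nod y)).eval z)
    simp only [neg_neg] at h2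
    rw [h2]
    have h3 : ∀ i, (- x i) ^ (j : ℕ) * (wof n (nod y)).eval (x i) =
        (-1) ^ (j : ℕ) * (x i ^ (j : ℕ) * (wof n (nod y)).eval (x i)) := by
      intro i
      rw [neg_pow, mul_assoc]
    simp only [h3]
    rw [← Finset.mul_sum, wof_trace hx hG j]
    have h4 := trace_LT_nod hy (j : ℕ)
    linear_combination (-2) * h4
  have hlt : (wof n (nod y)).degree < n := degree_toPoly_lt _
  have hlt' : ((wof n (nod y)).comp (-X)).degree < n := by
    rcases eq_or_ne (wof n (nod y)) 0 with h0 | h0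
    · rw [h0, zero_comp]; rw [h0] at hlt; exact hlt
    · refine lt_of_le_of_lt degree_le_natDegree ?_
      rw [natDegree_comp, natDegree_neg, natDegree_X, mul_one]
      rwa [← degree_eq_natDegree h0]
  refine eq_of_eval_nod hx (by simpa using hlt') (by simpa using hlt) fun j => ?_
  rw [eval_comp, eval_neg, eval_X]
  exact sub_eq_zero.1 (congrFun h1 j)

private lemma wof_charpoly (hy : Function.Injective y) (hx : Function.Injective x)
    (hG : (LT n (nod y)).charpoly = nod x) (h2 : ∀ i j, 2 + x j - x i ≠ 0) :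
    (XT n (nod x) (wof n (nod y))).charpoly = nod y := by
  obtain ⟨P, hP, hPd⟩ := exists_diag hx hG
  have hcomm := LT_comm_nod hy
  have hwt := fun j => wof_trace (y := y) hx hG j
  have hchM : (Mmat n (nod y) X).charpoly = nod y := by
    have := charT_nod hy (X : L[X])
    simpa only [charT, eval_X] using this
  set Λ := LT n (nod y) with hΛ
  set M := Mmat n (nod y) X with hM
  set D := Matrix.diagonal x with hD
  set U : Fin n → L := (2 : L) • M.mulVec (e0 n) with hU
  set v : Fin n → L := fun k : Fin n => pS n (nod y) k with hv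
  set X' := P⁻¹ * M * P with hX'
  have hPP : P⁻¹ * P = 1 := Matrix.nonsing_inv_mul _ hP
  have hPP' : P * P⁻¹ = 1 := Matrix.mul_nonsing_inv _ hP
  have hPX : P * X' = M * P := by
    rw [hX', ← mul_assoc, ← mul_assoc, hPP', one_mul]
  have hPk : ∀ k : ℕ, Λ ^ k * P = P * D ^ k := fun k => pow_mul_comm_diag hPd k
  -- the relation for `X'`
  have hrel : X' * D - D * X' + (2 : L) • X' =
      Matrix.vecMulVec (P⁻¹.mulVec U) (P.transpose.mulVec v) := by
    have h3 : P * (X' * D - D * X' + (2 : L) • X') = P *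
        Matrix.vecMulVec (P⁻¹.mulVec U) (P.transpose.mulVec v) := by
      have p1 : P * (X' * D) = M * Λ * P := by
        rw [← mul_assoc, hPX, mul_assoc, ← hPd, ← mul_assoc]
      have p2 : P * (D * X') = Λ * M * P := by
        rw [← mul_assoc, ← hPd, mul_assoc, hPX, ← mul_assoc]
      rw [mul_add, mul_sub, p1, p2, Matrix.mul_smul, hPX, Matrix.mul_vecMulVec,
        Matrix.mulVec_mulVec, hPP', Matrix.one_mulVec]
      rw [← Matrix.smul_mul, ← sub_mul, ← add_mul, hcomm, Matrix.vecMulVec_mul,
        ← Matrix.mulVec_transpose]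
    have h5 := congrArg (fun N => P⁻¹ * N) h3
    simpa only [← mul_assoc, hPP, one_mul] using h5
  set a := P⁻¹.mulVec U with ha
  set b := P.transpose.mulVec v with hb
  have hent : ∀ i j, X' i j = a i * (1 / (2 + x j - x i)) * b j := by
    intro i j
    have h3 := congrFun (congrFun hrel i) j
    rw [Matrix.add_apply, Matrix.sub_apply, Matrix.smul_apply, smul_eq_mul, hD,
      Matrix.mul_diagonal, Matrix.diagonal_mul, Matrix.vecMulVec_apply] at h3
    have h4 := h2 i j
    field_simp
    linear_combination h3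
  have hX'eq : X' = Matrix.diagonal a * (CC x * Matrix.diagonal b) := by
    ext i j
    rw [Matrix.diagonal_mul, Matrix.mul_diagonal, hent, CC, Matrix.of_apply, mul_assoc]
  -- the values of `w`
  have hw : ∀ i, (wof n (nod y)).eval (x i) = a i * b i := by
    have h3 : (fun i => (wof n (nod y)).eval (x i) - 2 * X' i i) = 0 := by
      apply eq_zero_of_pow_sums hx
      intro j
      simp only [mul_sub, Finset.sum_sub_distrib]
      rw [hwt j]
      have h4 : (M * Λ ^ (j : ℕ)).trace = (X' * D ^ (j : ℕ)).trace := by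
        refine (trace_conj hP ?_).symm
        rw [← mul_assoc, hPX, mul_assoc, ← hPk, ← mul_assoc]
      have h5 : (X' * D ^ (j : ℕ)).trace = ∑ i, x i ^ (j : ℕ) * X' i i := by
        rw [hD, Matrix.diagonal_pow, Matrix.trace]
        refine Finset.sum_congr rfl fun i _ => ?_
        rw [Matrix.diag_apply, Matrix.mul_diagonal, Pi.pow_apply, mul_comm]
      rw [h4, h5, Finset.mul_sum, ← Finset.sum_sub_distrib]
      refine Finset.sum_eq_zero fun i _ => ?_
      ring
    intro i
    have h4 := sub_eq_zero.1 (congrFun h3 i)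
    rw [h4, hent i i]
    have h5 : (2 : L) + x i - x i = 2 := by ring
    rw [h5]
    field_simp
  have h6 : X'.charpoly = nod y := by
    rw [← hchM]
    exact charpoly_conj hP hPX
  refine Eq.trans ?_ h6
  rw [hX'eq, Matrix.charpoly_mul_comm (Matrix.diagonal a), mul_assoc,
    Matrix.diagonal_mul_diagonal, Matrix.charpoly_mul_comm (CC x)]
  refine charpoly_conj (isUnit_vandermonde hx) ?_
  rw [XT, ← mul_assoc, vandermonde_mul_Mmat, mul_assoc, vandermonde_mul_Cm hx h2, ← mul_assoc]
  congr 2
  ext i j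
  by_cases hij : i = j
  · subst hij
    rw [Matrix.diagonal_apply_eq, Matrix.diagonal_apply_eq, hw, mul_comm]
  · rw [Matrix.diagonal_apply_ne _ hij, Matrix.diagonal_apply_ne _ hij]

end Nod2

/-- The parameters of `f`.  Over an algebraic closure let `g = charpoly Λ = nod x` and diagonalise
`Λ = P diag(x) P⁻¹` (`exists_diag`); `X' = P⁻¹ X P` satisfies `X'_ij (2 + x_j - x_i) = u_i v_j`
by `LT_comm_nod`, so `X' = diag(u) CC(x) diag(v)`, `w(x_i) = 2 X'_ii = u_i v_i`, and
`charpoly X' = charpoly (diag(u v) CC(x)) = charpoly (XT n g w)`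
(`Matrix.charpoly_mul_comm`).  `w` is even by `trace_LT_nod`. -/
theorem exists_paramsT {K : Type*} [Field K] [CharZero K] {n : ℕ} {f : K[X]} (hf : f.Monic)
    (hn : f.natDegree = n) (hs : f.Separable) (hY : (LT n f).charpoly.Separable)
    (hcop : (Mmat n (LT n f).charpoly (gsh (LT n f).charpoly)).det ≠ 0) :
    (LT n f).charpoly.comp (-X) = (-1) ^ n * (LT n f).charpoly ∧
    ∃ w : K[X], w.degree < (n : WithBot ℕ) ∧ w.comp (-X) = w ∧
      (XT n (LT n f).charpoly w).charpoly = f := by
  let L := AlgebraicClosure K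
  let φ : K →+* L := algebraMap K L
  have : CharZero L := charZero_of_injective_algebraMap (algebraMap K L).injective
  have hgm : (LT n f).charpoly.Monic := Matrix.charpoly_monic _
  obtain ⟨y, hy, h1⟩ := exists_nod φ hf hn hs
  obtain ⟨x, hx, h2⟩ := exists_nod φ hgm
    (by rw [Matrix.charpoly_natDegree_eq_dim, Fintype.card_fin]) hY
  have hG : (LT n (nod y)).charpoly = nod x := by
    rw [← h2, ← Matrix.charpoly_map, map_LT φ hf, h1]
  have hij : ∀ i j, 2 + x j - x i ≠ 0 := by
    rw [← det_gsh_ne_zero_iff hx, ← h2, ← map_gsh, map_Mmat φ hgm]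
    have h3 := (map_ne_zero φ).2 hcop
    rwa [RingHom.map_det, RingHom.mapMatrix_apply] at h3
  refine ⟨?_, wof n f, degree_toPoly_lt _, ?_, ?_⟩
  · apply Polynomial.map_injective φ φ.injective
    rw [Polynomial.map_comp, Polynomial.map_neg, Polynomial.map_X, Polynomial.map_mul,
      Polynomial.map_pow, Polynomial.map_neg, Polynomial.map_one, h2, ← hG]
    exact parity_LT_nod hy
  · apply Polynomial.map_injective φ φ.injective
    rw [Polynomial.map_comp, Polynomial.map_neg, Polynomial.map_X, map_wof φ hf, h1]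
    exact wof_even hy hx hG
  · apply Polynomial.map_injective φ φ.injective
    rw [← Matrix.charpoly_map, map_XT φ hgm, h2, map_wof φ hf, h1]
    exact wof_charpoly hy hx hG hij

end Pool.Agent.Lib.MP_12adaf_nt
end

section

/-!
# Genericity
-/

namespace Pool.Agent.Lib.MP_12adaf_nt

set_option linter.unusedSectionVars false
set_option linter.unusedVariables false

open Finset Polynomial

/-- `D (2 C(y)) D` with `D = diag(sqrt y)`. -/
noncomputable def trgH {n : ℕ} (y : Fin n → ℝ) : Matrix (Fin n) (Fin n) ℂ :=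
  Matrix.of fun i j =>
    (Real.sqrt (y i) : ℂ) * (2 * (1 / ((y i : ℂ) - y j))) * (Real.sqrt (y j) : ℂ)

lemma trg_herm {n : ℕ} (y : Fin n → ℝ) : (Complex.I • trgH y).IsHermitian := by
  ext i j
  rw [Matrix.conjTranspose_apply, Matrix.smul_apply, Matrix.smul_apply, trgH, Matrix.of_apply,
    Matrix.of_apply, smul_eq_mul, smul_eq_mul]
  simp only [star_mul', star_div₀, star_one, star_sub, Complex.star_def, Complex.conj_I,
    Complex.conj_ofReal, map_ofNat]
  rw [← neg_sub (y i : ℂ) (y j), div_neg]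
  ring

lemma trg_charpoly {n : ℕ} {y : Fin n → ℝ} (hpos : ∀ i, 0 < y i) :
    (Lx fun i => (y i : ℂ)).charpoly = (trgH y).charpoly := by
  have h1 : (Lx fun i => (y i : ℂ)) = Matrix.diagonal (fun i => (Real.sqrt (y i) : ℂ)) *
      (Matrix.of fun i j => (Real.sqrt (y i) : ℂ) * (2 * (1 / ((y i : ℂ) - y j)))) := by
    ext i j
    rw [Matrix.diagonal_mul, Lx, Matrix.of_apply, Matrix.of_apply, ← mul_assoc,
      ← Complex.ofReal_mul, Real.mul_self_sqrt (hpos i).le]
    ring
  have h2 : trgH y =
      (Matrix.of fun i j => (Real.sqrt (y i) : ℂ) * (2 * (1 / ((y i : ℂ) - y j)))) *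
        Matrix.diagonal (fun i => (Real.sqrt (y i) : ℂ)) := by
    ext i j
    rw [Matrix.mul_diagonal, trgH, Matrix.of_apply, Matrix.of_apply]
  rw [h1, h2, Matrix.charpoly_mul_comm]

lemma trg_re {n : ℕ} {y : Fin n → ℝ} (hpos : ∀ i, 0 < y i) {a : ℂ}
    (ha : (Lx fun i => (y i : ℂ)).charpoly.IsRoot a) : a.re = 0 := by
  rw [trg_charpoly hpos, IsRoot.def] at ha
  have h1 := congrArg (Polynomial.eval a) (charpoly_smul_comp Complex.I (trgH y))
  rw [eval_comp, eval_mul, eval_C, eval_X, eval_mul, ha, mul_zero, (trg_herm y).charpoly_eq,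
    eval_prod] at h1
  obtain ⟨i, -, hi⟩ := Finset.prod_eq_zero_iff.mp h1
  rw [eval_sub, eval_X, eval_C, sub_eq_zero] at hi
  have h2 := congrArg Complex.im hi
  simpa using h2

/-- An eigenvector for a purely imaginary number with zero sum vanishes. -/
lemma trg_vec {n : ℕ} {y : Fin n → ℝ} (hy : Function.Injective y) (hpos : ∀ i, 0 < y i) {l : ℂ}
    (hl : l.re = 0) {v : Fin n → ℂ}
    (hv : (Lx fun i => (y i : ℂ)).mulVec v = fun k => l * v k) (h0 : ∑ k, v k = 0) : v = 0 := by
  have h1 : (Lx fun i => (y i : ℂ)).mulVec (fun k => (y k : ℂ) * v k) =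
      fun k => (l + 2) * ((y k : ℂ) * v k) := by
    funext i
    have h2 := congrFun hv i
    rw [Matrix.mulVec, dotProduct] at h2 ⊢
    have h3 : ∀ j, (Lx fun i => (y i : ℂ)) i j * ((y j : ℂ) * v j) =
        (y i : ℂ) * ((Lx fun i => (y i : ℂ)) i j * v j) - 2 * y i * v j +
          (if i = j then 2 * (y i : ℂ) * v j else 0) := by
      intro j
      rw [Lx, Matrix.of_apply]
      by_cases h : i = j
      · subst h
        rw [if_pos rfl, sub_self, div_zero]
        ring
      · rw [if_neg h]
        have h4 : (y i : ℂ) - y j ≠ 0 := sub_ne_zero.mpr fun h5 => h (hy (by exact_mod_cast h5))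
        field_simp
        ring
    simp only [h3]
    rw [Finset.sum_add_distrib, Finset.sum_sub_distrib, ← Finset.mul_sum, h2, ← Finset.mul_sum,
      h0, Finset.sum_ite_eq, if_pos (Finset.mem_univ _)]
    ring
  by_contra hne
  have h2 : (fun k => (y k : ℂ) * v k) ≠ 0 := by
    intro h
    apply hne
    funext k
    have h3 := congrFun h k
    simp only [Pi.zero_apply, mul_eq_zero, Complex.ofReal_eq_zero] at h3
    exact h3.resolve_left (hpos k).ne'
  have h3 : (Lx fun i => (y i : ℂ)).charpoly.IsRoot (l + 2) := by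
    rw [IsRoot.def, Matrix.eval_charpoly]
    refine Matrix.exists_mulVec_eq_zero_iff.mp ⟨_, h2, ?_⟩
    rw [Matrix.sub_mulVec, h1]
    funext k
    rw [Pi.sub_apply, Matrix.scalar_apply, Matrix.mulVec_diagonal, Pi.zero_apply, sub_self]
  have h4 := trg_re hpos h3
  rw [Complex.add_re, hl] at h4
  norm_num at h4

lemma trg_inj {n : ℕ} {y : Fin n → ℝ} (hy : Function.Injective y) (hpos : ∀ i, 0 < y i) :
    Function.Injective (trg_herm y).eigenvalues := by
  intro i j hij
  by_contra hne
  obtain ⟨e, he⟩ : ∃ e, e = (trg_herm y).eigenvectorBasis := ⟨_, rfl⟩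
  have h0 : ∀ k, (Complex.I • trgH y).mulVec ⇑(e k) =
      fun m => ((trg_herm y).eigenvalues k : ℂ) * e k m := fun k => by
    rw [he]
    refine ((trg_herm y).mulVec_eigenvectorBasis k).trans ?_
    funext m
    rw [Pi.smul_apply, Complex.real_smul]
  have hs : ∀ m, (Real.sqrt (y m) : ℂ) * (Real.sqrt (y m) : ℂ) = (y m : ℂ) := fun m => by
    rw [← Complex.ofReal_mul, Real.mul_self_sqrt (hpos m).le]
  have hs0 : ∀ m, (Real.sqrt (y m) : ℂ) ≠ 0 := fun m => by
    rw [Ne, Complex.ofReal_eq_zero]
    exact (Real.sqrt_pos.mpr (hpos m)).ne'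
  have h1 : ∀ k, (Lx fun i => (y i : ℂ)).mulVec (fun m => (Real.sqrt (y m) : ℂ) * e k m) =
      fun m => (-Complex.I * ((trg_herm y).eigenvalues k : ℂ)) *
        ((Real.sqrt (y m) : ℂ) * e k m) := by
    intro k
    funext m
    have h2 := congrFun (h0 k) m
    simp only at h2
    have h3 : (Complex.I • trgH y).mulVec ⇑(e k) m = Complex.I * ∑ p, trgH y m p * e k p := by
      rw [Matrix.smul_mulVec, Pi.smul_apply, smul_eq_mul]
      rfl
    rw [h3] at h2
    have h4 : ∑ p, trgH y m p * e k p = -Complex.I * ((trg_herm y).eigenvalues k * e k m) := by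
      rw [← h2, ← mul_assoc, neg_mul, Complex.I_mul_I, neg_neg, one_mul]
    have h5 : (Lx fun i => (y i : ℂ)).mulVec (fun m => (Real.sqrt (y m) : ℂ) * e k m) m =
        (Real.sqrt (y m) : ℂ) * ∑ p, trgH y m p * e k p := by
      rw [Matrix.mulVec, dotProduct, Finset.mul_sum]
      refine Finset.sum_congr rfl fun p _ => ?_
      rw [Lx, trgH, Matrix.of_apply, Matrix.of_apply, ← hs m]
      ring
    rw [h5, h4]
    ring
  obtain ⟨v, hv⟩ : ∃ v : Fin n → Fin n → ℂ, v = fun k m => (Real.sqrt (y m) : ℂ) * e k m :=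
    ⟨_, rfl⟩
  have hvk : ∀ k m, v k m = (Real.sqrt (y m) : ℂ) * e k m := fun k m => by rw [hv]
  have h1' : ∀ k, (Lx fun i => (y i : ℂ)).mulVec (v k) =
      fun m => (-Complex.I * ((trg_herm y).eigenvalues k : ℂ)) * v k m := fun k => by
    rw [hv]
    exact h1 k
  have hre : (-Complex.I * ((trg_herm y).eigenvalues i : ℂ)).re = 0 := by
    simp
  obtain ⟨a, ha⟩ : ∃ a : ℂ, a = ∑ k, v j k := ⟨_, rfl⟩
  obtain ⟨b, hb⟩ : ∃ b : ℂ, b = ∑ k, v i k := ⟨_, rfl⟩
  by_cases hb0 : b = 0
  · have h2 := trg_vec hy hpos hre (h1' i) (hb ▸ hb0)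
    have h3 : e i = 0 := by
      ext k
      have h4 := congrFun h2 k
      rw [hvk, Pi.zero_apply, mul_eq_zero] at h4
      exact h4.resolve_left (hs0 k)
    exact e.orthonormal.ne_zero i h3
  · have h2 : (Lx fun i => (y i : ℂ)).mulVec (fun m => a * v i m - b * v j m) =
        fun m => (-Complex.I * ((trg_herm y).eigenvalues i : ℂ)) * (a * v i m - b * v j m) := by
      have h3 : (fun m => a * v i m - b * v j m) = a • v i - b • v j := rfl
      rw [h3, Matrix.mulVec_sub, Matrix.mulVec_smul, Matrix.mulVec_smul, h1', h1', ← hij]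
      funext m
      simp only [Pi.sub_apply, Pi.smul_apply, smul_eq_mul]
      ring
    have h3 : ∑ m, (a * v i m - b * v j m) = 0 := by
      rw [Finset.sum_sub_distrib, ← Finset.mul_sum, ← Finset.mul_sum, ← ha, ← hb]
      ring
    have h4 := trg_vec hy hpos hre h2 h3
    have h5 : a • e i - b • e j = 0 := by
      ext k
      have h6 := congrFun h4 k
      rw [hvk, hvk, Pi.zero_apply] at h6
      have h7 : (Real.sqrt (y k) : ℂ) * (a * e i k - b * e j k) = 0 := by
        rw [← h6]
        ring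
      exact (mul_eq_zero.mp h7).resolve_left (hs0 k)
    have h6 : inner ℂ (e j) (a • e i - b • e j) = -b := by
      rw [inner_sub_right, inner_smul_right, inner_smul_right, e.orthonormal.2 (Ne.symm hne),
        inner_self_eq_norm_sq_to_K, e.orthonormal.1 j]
      simp
    rw [h5, inner_zero_right] at h6
    exact hb0 (by rw [← neg_neg b, ← h6, neg_zero])

/-- For distinct positive real `y` the matrix `2 y_i/(y_i - y_j)` is similar to a real skew matrix
(`charpoly (D C) = charpoly (D^(1/2) C D^(1/2))`), so that its eigenvalues are purely imaginary;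
they are distinct: an eigenvector `v` with `∑ v = 0` for `i m` gives, by
`[X, Λ] + 2 X = 2 y ⊗ 1`, the eigenvector `X v` for `i m + 2`, hence `v = 0`. -/
theorem real_Lx {n : ℕ} {y : Fin n → ℝ} (hy : Function.Injective y) (hpos : ∀ i, 0 < y i) :
    (Lx fun i => (y i : ℂ)).charpoly.Separable ∧
      ∀ a b : ℂ, (Lx fun i => (y i : ℂ)).charpoly.IsRoot a →
        (Lx fun i => (y i : ℂ)).charpoly.IsRoot b → 2 + a - b ≠ 0 := by
  constructor
  · rw [trg_charpoly hpos]
    refine separable_of_smul Complex.I_ne_zero ?_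
    rw [(trg_herm y).charpoly_eq]
    refine separable_prod_X_sub_C_iff.mpr fun i j h => trg_inj hy hpos ?_
    exact_mod_cast h
  · intro a b ha hb h
    have h1 := congrArg Complex.re h
    rw [Complex.sub_re, Complex.add_re, trg_re hpos ha, trg_re hpos hb] at h1
    norm_num at h1

/-- The matrix `Del y * Lx y`, with polynomial entries. -/
def trgM {A : Type*} [CommRing A] {n : ℕ} (u : Fin n → A) : Matrix (Fin n) (Fin n) A :=
  Matrix.of fun i j => 2 * u i * AT u i j

lemma trg_map_M {A B : Type*} [CommRing A] [CommRing B] (φ : A →+* B) {n : ℕ} (u : Fin n → A) :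
    (trgM u).map φ = trgM (φ ∘ u) := by
  ext i j
  rw [trgM, trgM, Matrix.map_apply, Matrix.of_apply, Matrix.of_apply, ← map_AT, map_mul, map_mul,
    map_ofNat]
  rfl

/-- The certificate. -/
noncomputable def trgC {A : Type*} [CommRing A] {n : ℕ} (u : Fin n → A) : A :=
  Del u * resultant (trgM u).charpoly (derivative (trgM u).charpoly) n (n - 1) *
    resultant (trgM u).charpoly ((trgM u).charpoly.comp (X - C (2 * Del u))) n n

lemma trg_map_C {A B : Type*} [CommRing A] [CommRing B] (φ : A →+* B) {n : ℕ} (u : Fin n → A) :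
    φ (trgC u) = trgC (φ ∘ u) := by
  rw [trgC, trgC, map_mul, map_mul, map_Del, ← resultant_map_map, ← resultant_map_map,
    ← derivative_map, Polynomial.map_comp, ← Matrix.charpoly_map, trg_map_M, Polynomial.map_sub,
    Polynomial.map_X, Polynomial.map_C, map_mul, map_Del, map_ofNat]

lemma trg_eq_smul {L : Type*} [Field L] {n : ℕ} {u : Fin n → L} (hu : Function.Injective u) :
    trgM u = Del u • Lx u := by
  ext i j
  rw [trgM, Matrix.of_apply, AT_eq hu, Matrix.smul_apply, Matrix.smul_apply, cauchyMat, Lx,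
    Matrix.of_apply, Matrix.of_apply, smul_eq_mul, smul_eq_mul]
  ring

lemma trg_coprime_smul {L ι : Type*} [Field L] [Fintype ι] [DecidableEq ι] {c : L} (d : L)
    (hc : c ≠ 0) {M : Matrix ι ι L}
    (h : IsCoprime M.charpoly (M.charpoly.comp (X - C d))) :
    IsCoprime (c • M).charpoly ((c • M).charpoly.comp (X - C (c * d))) := by
  have h0 : M.charpoly.comp (C c⁻¹ * X) = C (c⁻¹ ^ Fintype.card ι) * (c • M).charpoly := by
    have := charpoly_smul_comp c⁻¹ (c • M)
    rwa [smul_smul, inv_mul_cancel₀ hc, one_smul] at this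
  have h1 := IsCoprime.map h (compRingHom (C c⁻¹ * X))
  rw [coe_compRingHom_apply, coe_compRingHom_apply, comp_assoc, h0] at h1
  have h2 : (X - C d : L[X]).comp (C c⁻¹ * X) = (C c⁻¹ * X).comp (X - C (c * d)) := by
    rw [sub_comp, X_comp, C_comp, mul_comp, C_comp, X_comp, mul_sub, ← C_mul, ← mul_assoc,
      inv_mul_cancel₀ hc, one_mul]
  rw [h2, ← comp_assoc, h0, mul_comp, C_comp] at h1
  exact (isCoprime_mul_unit_left
    (isUnit_C.mpr (pow_ne_zero _ (inv_ne_zero hc)).isUnit) _ _).mp h1

lemma trg_C_ne_zero_iff {L : Type*} [Field L] [CharZero L] {n : ℕ} (u : Fin n → L) :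
    trgC u ≠ 0 ↔ Function.Injective u ∧ (Lx u).charpoly.Separable ∧
      IsCoprime (Lx u).charpoly (gsh (Lx u).charpoly) := by
  have hdeg : (trgM u).charpoly.natDegree = n := by
    rw [Matrix.charpoly_natDegree_eq_dim, Fintype.card_fin]
  have hdeg2 : ((trgM u).charpoly.comp (X - C (2 * Del u))).natDegree = n := by
    rw [natDegree_comp, natDegree_X_sub_C, mul_one, hdeg]
  have hres : resultant (trgM u).charpoly ((trgM u).charpoly.comp (X - C (2 * Del u))) n n ≠ 0 ↔
      IsCoprime (trgM u).charpoly ((trgM u).charpoly.comp (X - C (2 * Del u))) := by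
    have h1 := resultant_eq_zero_iff (f := (trgM u).charpoly)
      (g := (trgM u).charpoly.comp (X - C (2 * Del u)))
    rw [hdeg, hdeg2] at h1
    rw [Ne, h1, not_and, not_not]
    exact ⟨fun h => h (Or.inl (Matrix.charpoly_monic _).ne_zero), fun h _ => h⟩
  rw [trgC, mul_ne_zero_iff, mul_ne_zero_iff, Del_ne_zero_iff,
    resultant_deriv_monic (Matrix.charpoly_monic _) hdeg, hres, and_assoc]
  refine and_congr_right fun hu => ?_
  have hD : Del u ≠ 0 := Del_ne_zero_iff.mpr hu
  rw [trg_eq_smul hu]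
  refine and_congr ?_ ?_
  · constructor
    · intro h
      exact separable_of_smul hD
        (separable_of_discr_ne_zero (Matrix.charpoly_monic _) (right_ne_zero_of_mul h))
    · intro h
      refine mul_ne_zero (pow_ne_zero _ (neg_ne_zero.mpr one_ne_zero))
        (discr_ne_zero_of_separable (Matrix.charpoly_monic _) ?_)
      refine separable_of_smul (inv_ne_zero hD) ?_
      rwa [smul_smul, inv_mul_cancel₀ hD, one_smul]
  · constructor
    · intro h
      have h1 := trg_coprime_smul (2 * Del u) (inv_ne_zero hD) h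
      rwa [smul_smul, inv_mul_cancel₀ hD, one_smul, mul_comm (2 : L), inv_mul_cancel_left₀ hD]
        at h1
    · intro h
      have h1 := trg_coprime_smul (2 : L) hD h
      rwa [mul_comm (Del u) 2] at h1

lemma trg_C_nat_ne_zero (n : ℕ) (L : Type*) [Field L] [CharZero L] :
    trgC (fun i : Fin n => ((i : ℕ) : L) + 1) ≠ 0 := by
  have h1 : trgC (fun i : Fin n => ((((i : ℕ) : ℤ) : ℂ) + 1)) ≠ 0 := by
    rw [trg_C_ne_zero_iff]
    have hinj : Function.Injective fun i : Fin n => (((i : ℕ) : ℝ) + 1) :=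
      fun i j h => Fin.ext (by simpa using h)
    have hpos : ∀ i : Fin n, 0 < (((i : ℕ) : ℝ) + 1) := fun i => by positivity
    have h2 := real_Lx hinj hpos
    have h3 : (fun i : Fin n => (((((i : ℕ) : ℝ) + 1 : ℝ)) : ℂ)) =
        fun i : Fin n => ((((i : ℕ) : ℤ) : ℂ) + 1) := by
      funext i
      push_cast
      rfl
    rw [h3] at h2
    refine ⟨fun i j h => Fin.ext (by simpa using h), h2.1, ?_⟩
    rw [Polynomial.isCoprime_iff_aeval_ne_zero_of_isAlgClosed ℂ ℂ]
    intro a
    by_contra hcon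
    push Not at hcon
    obtain ⟨ha, hb⟩ := hcon
    rw [coe_aeval_eq_eval] at ha hb
    rw [gsh, eval_comp, eval_sub, eval_X, eval_C] at hb
    exact h2.2 (a - 2) a hb ha (by ring)
  have h2 : trgC (fun i : Fin n => (((i : ℕ) : ℤ) + 1)) ≠ 0 := by
    intro h
    apply h1
    have h3 := trg_map_C (Int.castRingHom ℂ) (fun i : Fin n => (((i : ℕ) : ℤ) + 1))
    rw [h, map_zero] at h3
    rw [h3]
    congr 1
    funext i
    simp
  have h3 := trg_map_C (Int.castRingHom L) (fun i : Fin n => (((i : ℕ) : ℤ) + 1))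
  have h4 : (Int.castRingHom L) ∘ (fun i : Fin n => (((i : ℕ) : ℤ) + 1)) =
      fun i : Fin n => (((i : ℕ) : L) + 1) := by
    ext i; simp
  rw [h4] at h3
  rw [← h3]
  simpa using h2

/-- A polynomial certificate, defined over the integers, as `cert5` of `CM/Gen.lean`: with
`M = 2 y_i * AT y = Del y * Lx y` take `Del y * Res(charpoly M, (charpoly M)') *
Res(charpoly M, (charpoly M)(X - 2 Del y))`. -/
theorem exists_certT (n : ℕ) (L : Type*) [Field L] [CharZero L] :
    ∃ F : MvPolynomial (Fin n) L,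
      MvPolynomial.eval (fun i : Fin n => ((i : ℕ) : L) + 1) F ≠ 0 ∧
      ∀ y : Fin n → L, MvPolynomial.eval y F ≠ 0 →
        Function.Injective y ∧ (Lx y).charpoly.Separable ∧
        IsCoprime (Lx y).charpoly (gsh (Lx y).charpoly) := by
  have h1 : ∀ x : Fin n → L, MvPolynomial.eval x (trgC fun i => MvPolynomial.X i) = trgC x := by
    intro x
    rw [trg_map_C]
    congr 1
    funext i
    simp
  refine ⟨trgC fun i => MvPolynomial.X i, ?_, fun y hy => ?_⟩
  · rw [h1]
    exact trg_C_nat_ne_zero n L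
  · rw [h1] at hy
    exact (trg_C_ne_zero_iff y).mp hy

/-- Every separable algebra with a unit `θ` has a unit `u` such that `θ u^2` is generic: apply
`exists_generic` to `F(θ_i X_i^2)`, which does not vanish at `X_i = sqrt((i + 1)/θ_i)`. -/
theorem exists_gen_sq {K L : Type*} [Field K] [CharZero K] [Field L] [IsAlgClosed L] [Algebra K L]
    {n : ℕ} {θ : Fin n → L} (hθ : Function.Injective θ) (h0 : ∀ i, θ i ≠ 0)
    {F : MvPolynomial (Fin n) L}
    (hF : MvPolynomial.eval (fun i : Fin n => ((i : ℕ) : L) + 1) F ≠ 0) :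
    ∃ P : K[X], MvPolynomial.eval (fun i => θ i * (aeval (θ i) P) ^ 2) F ≠ 0 := by
  obtain ⟨G, hG⟩ : ∃ G : MvPolynomial (Fin n) L, G = MvPolynomial.bind₁
      (fun i => MvPolynomial.C (θ i) * MvPolynomial.X i ^ 2) F := ⟨_, rfl⟩
  have hGe : ∀ a : Fin n → L, MvPolynomial.eval a G =
      MvPolynomial.eval (fun i => θ i * a i ^ 2) F := by
    intro a
    rw [hG]
    change MvPolynomial.eval₂Hom (RingHom.id L) a (MvPolynomial.bind₁ _ F) =
      MvPolynomial.eval₂Hom (RingHom.id L) _ F
    rw [MvPolynomial.eval₂Hom_bind₁]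
    congr 2
    ext i
    simp
  have hG0 : G ≠ 0 := by
    intro h
    have h1 : ∀ i : Fin n, ∃ z : L, z ^ 2 = (((i : ℕ) : L) + 1) / θ i := fun i =>
      IsAlgClosed.exists_pow_nat_eq _ (by norm_num)
    choose z hz using h1
    have h2 := hGe z
    rw [h, map_zero] at h2
    apply hF
    rw [h2]
    congr 2
    funext i
    rw [hz, mul_div_cancel₀ _ (h0 i)]
  obtain ⟨P, hP⟩ := exists_generic (K := K) hθ hG0
  exact ⟨P, by rwa [hGe] at hP⟩

end Pool.Agent.Lib.MP_12adaf_nt
end
end
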