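import Mathlib
import Pool.Agent.Lib.MP_12adaf_nt.TR.Gen
import Pool.Agent.Lib.MP_12adaf_nt.CM.Main
import Pool.Agent.Lib.MP_12adaf_nt.CM.Rational

section

/-!
# Continuity of the parametrisation
-/

namespace Pool.Agent.Lib.MP_12adaf_nt

set_option linter.unusedSectionVars false
set_option linter.unusedVariables false

open Finset Polynomial Filter Topology

section Tends

variable {K : Type*} [NormedField K] {α : Type*} {l : Filter α} {n : ℕ}

lemma CTB.comp_const {g : α → K[X]} {g0 : K[X]} (hg : CTB l g g0) (q : K[X]) :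
    CTB l (fun a => (g a).comp q) (g0.comp q) := by
  obtain ⟨h1, M, h2, h3⟩ := hg
  have h4 : ∀ p : K[X], p.natDegree ≤ M →
      p.comp q = ∑ i ∈ range (M + 1), Polynomial.C (p.coeff i) * q ^ i := by
    intro p hp
    rw [Polynomial.comp, eval₂_eq_sum_range' Polynomial.C (Nat.lt_succ_of_le hp)]
  rw [h4 g0 h3]
  simp only [fun a => h4 (g a) (h2 a)]
  exact CTB.sum _ fun i _ => (CTB.C (h1 i)).mul (CTB.const _)

lemma CT.contract_two {g : α → K[X]} {g0 : K[X]} (hg : CT l g g0) :
    CT l (fun a => contract 2 (g a)) (contract 2 g0) := by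
  intro i
  simp only [coeff_contract two_ne_zero]
  exact hg _

lemma CT.divX' {g : α → K[X]} {g0 : K[X]} (hg : CT l g g0) :
    CT l (fun a => divX (g a)) (divX g0) := by
  intro i
  simp only [coeff_divX]
  exact hg _

private lemma tr_ctb_expand {c : α → K[X]} {c0 : K[X]} (hc : CTB l c c0) :
    CTB l (fun a => expand K 2 (c a)) (expand K 2 c0) := by
  obtain ⟨h1, M, h2, h3⟩ := hc
  refine ⟨fun i => ?_, M * 2, fun a => ?_, ?_⟩
  · simp only [coeff_expand two_pos]
    by_cases h : 2 ∣ i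
    · simp only [if_pos h]; exact h1 _
    · simp only [if_neg h]; exact tendsto_const_nhds
  · rw [natDegree_expand]; exact Nat.mul_le_mul_right _ (h2 a)
  · rw [natDegree_expand]; exact Nat.mul_le_mul_right _ h3

private lemma tr_ctb_gof {c : α → K[X]} {c0 : K[X]} (hc : CTB l c c0) (n : ℕ) :
    CTB l (fun a => gof n (c a)) (gof n c0) :=
  (tr_ctb_expand hc).mul (CTB.const _)

private lemma tr_ctb_gsh {g : α → K[X]} {g0 : K[X]} (hg : CTB l g g0) :
    CTB l (fun a => gsh (g a)) (gsh g0) :=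
  hg.comp_const _

private lemma tr_t_inv {M : α → Matrix (Fin n) (Fin n) K} {M0 : Matrix (Fin n) (Fin n) K}
    (h : Tendsto M l (𝓝 M0)) (hdet : M0.det ≠ 0) : Tendsto (fun a => (M a)⁻¹) l (𝓝 M0⁻¹) := by
  have h1 : ContinuousAt (Inv.inv : Matrix (Fin n) (Fin n) K → Matrix (Fin n) (Fin n) K) M0 := by
    apply continuousAt_matrix_inv
    rw [Ring.inverse_eq_inv']
    exact continuousAt_inv₀ hdet
  exact h1.tendsto.comp h

private lemma tr_ctb_charpoly {M : α → Matrix (Fin n) (Fin n) K} {M0 : Matrix (Fin n) (Fin n) K}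
    (h : Tendsto M l (𝓝 M0)) : CTB l (fun a => (M a).charpoly) M0.charpoly := by
  refine ⟨?_, n, fun a => ?_, ?_⟩
  · have h1 : ∀ i j, Tendsto (fun a => M a i j) l (𝓝 (M0 i j)) := fun i j =>
      tendsto_pi_nhds.mp (tendsto_pi_nhds.mp h i) j
    refine CT.det (A := fun a => Matrix.charmatrix (M a)) (B := Matrix.charmatrix M0)
      (l := l) fun i j => ?_
    simp only [Matrix.charmatrix_apply]
    exact (CT.const _).sub (CT.C (h1 i j))
  · rw [Matrix.charpoly_natDegree_eq_dim, Fintype.card_fin]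
  · rw [Matrix.charpoly_natDegree_eq_dim, Fintype.card_fin]

private lemma tr_t_det {M : α → Matrix (Fin n) (Fin n) K} {M0 : Matrix (Fin n) (Fin n) K}
    (h : Tendsto M l (𝓝 M0)) : Tendsto (fun a => (M a).det) l (𝓝 M0.det) :=
  tendsto_det fun i j => tendsto_pi_nhds.mp (tendsto_pi_nhds.mp h i) j

section G

variable {g w : α → K[X]} {g0 w0 : K[X]} (hg : CTB l g g0) (hm : ∀ a, (g a).Monic)
  (hd : ∀ a, (g a).natDegree = n) (hm0 : g0.Monic) (hd0 : g0.natDegree = n)

include hg hm hd hm0 hd0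

private lemma tr_t_Mmat {T : α → K[X]} {T0 : K[X]} (hT : CTB l T T0) :
    Tendsto (fun a => Mmat n (g a) (T a)) l (𝓝 (Mmat n g0 T0)) := by
  refine tendsto_pi_nhds.mpr fun i => tendsto_pi_nhds.mpr fun j => ?_
  simp only [Mmat, Matrix.of_apply]
  exact (CTB.modByMonic hg.1 hm hd hm0 hd0 ((CTB.const _).mul hT)).coeff _

private lemma tr_t_pS (k : ℕ) : Tendsto (fun a => pS n (g a) k) l (𝓝 (pS n g0 k)) := by
  have h := tr_t_Mmat hg hm hd hm0 hd0 (CTB.const (X ^ k))
  have hc : Continuous fun M : Matrix (Fin n) (Fin n) K => M.trace :=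
    Continuous.matrix_trace continuous_id
  exact (hc.tendsto _).comp h

private lemma tr_t_Cm (hdet : (Mmat n g0 (gsh g0)).det ≠ 0) :
    Tendsto (fun a => Cm n (g a)) l (𝓝 (Cm n g0)) := by
  unfold Cm
  exact (((tr_t_inv (tr_t_Mmat hg hm hd hm0 hd0 (tr_ctb_gsh hg)) hdet).mul
    tendsto_const_nhds).mul (tr_t_Mmat hg hm hd hm0 hd0 hg.derivative)).neg

private lemma tr_t_XT (hdet : (Mmat n g0 (gsh g0)).det ≠ 0) (hw : CTB l w w0) :
    Tendsto (fun a => XT n (g a) (w a)) l (𝓝 (XT n g0 w0)) := by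
  unfold XT
  exact (tr_t_Mmat hg hm hd hm0 hd0 hw).mul (tr_t_Cm hg hm hd hm0 hd0 hdet)

private lemma tr_t_Krt {M : α → Matrix (Fin n) (Fin n) K} {M0 : Matrix (Fin n) (Fin n) K}
    (h : Tendsto M l (𝓝 M0)) :
    Tendsto (fun a => (Krt n (g a) (M a)).det) l (𝓝 (Krt n g0 M0).det) := by
  apply tendsto_det
  intro i j
  simp only [Krt, Matrix.of_apply]
  have hT : Tendsto (fun a => (M a).transpose) l (𝓝 M0.transpose) :=
    ((Continuous.matrix_transpose continuous_id).tendsto _).comp h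
  have h1 : Tendsto (fun a => (M a).transpose ^ (j : ℕ)) l (𝓝 (M0.transpose ^ (j : ℕ))) :=
    hT.pow _
  exact tendsto_mulVec (fun i j => tendsto_pi_nhds.mp (tendsto_pi_nhds.mp h1 i) j)
    (fun k => tr_t_pS hg hm hd hm0 hd0 _) i

end G

private lemma tr_t_rho {g : α → K[X]} {g0 : K[X]} (hg : CTB l g g0) (n : ℕ) :
    Tendsto (fun a => rho n (g a)) l (𝓝 (rho n g0)) := by
  unfold rho
  exact CT.resultant ((hg.comp_const (X + C 1)).1.divX'.contract_two)
    ((hg.comp_const (X + C 1)).1.contract_two) _ _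

end Tends

/-- Continuity of the parametrisation (as `ct_fcp` in `CM/Main.lean`). -/
theorem ct_fT {K : Type*} [NormedField K] [CharZero K] {n : ℕ} {α : Type*} {l : Filter α}
    {c p : α → K[X]} {c0 p0 : K[X]} (hc : CTB l c c0) (hp : CTB l p p0)
    (hcm : ∀ a, (c a).Monic) (hcd : ∀ a, (c a).natDegree = n / 2) (hc0 : c0.Monic)
    (hcd0 : c0.natDegree = n / 2) (hs : c0.Separable) (h0 : c0.coeff 0 ≠ 0)
    (hdet : (Mmat n (gof n c0) (gsh (gof n c0))).det ≠ 0) :
    CTB l (fun a => fT n (c a) (p a)) (fT n c0 p0) ∧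
      Tendsto (fun a => k1T n (c a) (p a)) l (𝓝 (k1T n c0 p0)) ∧
      Tendsto (fun a => k2T n (c a) (p a)) l (𝓝 (k2T n c0 p0)) := by
  have hg := tr_ctb_gof hc n
  have hgm : ∀ a, (gof n (c a)).Monic := fun a => gof_monic n (hcm a)
  have hgd : ∀ a, (gof n (c a)).natDegree = n := fun a => natDegree_gof (hcm a) (hcd a)
  have hgm0 : (gof n c0).Monic := gof_monic n hc0
  have hgd0 : (gof n c0).natDegree = n := natDegree_gof hc0 hcd0
  have hX : Tendsto (fun a => XT n (gof n (c a)) (expand K 2 (p a))) l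
      (𝓝 (XT n (gof n c0) (expand K 2 p0))) :=
    tr_t_XT hg hgm hgd hgm0 hgd0 hdet (tr_ctb_expand hp)
  have hK := tr_t_Krt hg hgm hgd hgm0 hgd0 hX
  have hdisc : Tendsto (fun a => (c a).discr) l (𝓝 c0.discr) := hc.1.discr hcm hcd hc0 hcd0
  have haT : Tendsto (fun a => aT n (c a)) l (𝓝 (aT n c0)) := by
    unfold aT
    exact (hdisc.const_mul _).mul ((hc.coeff 0).pow _)
  have haT0 : aT n c0 ≠ 0 := by
    unfold aT
    exact mul_ne_zero (mul_ne_zero (pow_ne_zero _ two_ne_zero)
      (discr_ne_zero_of_separable hc0 hs)) (pow_ne_zero _ h0)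
  refine ⟨tr_ctb_charpoly hX, ?_, ?_⟩
  · unfold k1T
    exact (hK.mul (tr_t_rho hg n)).div ((hc.coeff 0).mul (haT.pow 2))
      (mul_ne_zero h0 (pow_ne_zero 2 haT0))
  · unfold k2T
    exact ((tr_t_det (tr_t_Mmat hc hcm hcd hc0 hcd0 hp)).mul hK).div
      (((hc.coeff 0).const_mul _).mul haT)
      (mul_ne_zero (mul_ne_zero (pow_ne_zero _ two_ne_zero) h0) haT0)

end Pool.Agent.Lib.MP_12adaf_nt
end

section

/-!
# Local points of the chart are dense
-/

namespace Pool.Agent.Lib.MP_12adaf_nt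

set_option linter.unusedSectionVars false
set_option linter.unusedVariables false

open Finset Polynomial Filter Topology

/-- The data of a point of the chart. -/
def ChartT {K : Type*} [Field K] (n : ℕ) (F c p : K[X]) : Prop :=
  c.Monic ∧ c.natDegree = n / 2 ∧ c.Separable ∧ c.coeff 0 ≠ 0 ∧
    p.degree < (((n + 1) / 2 : ℕ) : WithBot ℕ) ∧
    (Mmat n (gof n c) (gsh (gof n c))).det ≠ 0 ∧ fT n c p = F

private lemma loc_no_shift {L : Type*} [Field L] [CharZero L] {n : ℕ} {x : Fin n → L}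
    (hx : Function.Injective x) (h2 : IsCoprime (nod x) (gsh (nod x))) :
    (Mmat n (nod x) (gsh (nod x))).det ≠ 0 := by
  rw [det_Mmat_nod hx, Finset.prod_ne_zero_iff]
  intro i _ h0
  obtain ⟨a, b, hab⟩ := h2
  have h3 := congrArg (Polynomial.eval (x i)) hab
  rw [eval_add, eval_mul, eval_mul, h0, eval_nod_self, mul_zero, mul_zero, add_zero,
    eval_one] at h3
  exact zero_ne_one h3

private lemma loc_map_det {K L : Type*} [Field K] [Field L] (φ : K →+* L) {n : ℕ}
    (M : Matrix (Fin n) (Fin n) K) : φ M.det = (M.map φ).det := by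
  rw [RingHom.map_det]; rfl

/-- A polynomial whose roots are generic is in the chart (`exists_paramsT`, `exists_gof`,
`exists_even`). -/
theorem chartT_of_generic {K L : Type*} [Field K] [CharZero K] [Field L] [IsAlgClosed L]
    [Algebra K L] {n : ℕ} {F : K[X]} (hF : F.Monic) (hn : F.natDegree = n)
    {y : Fin n → L} (hy : Function.Injective y) (hFy : F.map (algebraMap K L) = nod y)
    (h1 : (Lx y).charpoly.Separable) (h2 : IsCoprime (Lx y).charpoly (gsh (Lx y).charpoly)) :
    ∃ c p : K[X], ChartT n F c p := by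
  have hL : CharZero L := charZero_of_injective_algebraMap (algebraMap K L).injective
  have hFs : F.Separable := by
    have := nod_separable hy
    rw [← hFy, separable_map] at this
    exact this
  have hgm : (LT n F).charpoly.Monic := Matrix.charpoly_monic _
  have hgn : (LT n F).charpoly.natDegree = n := by
    rw [Matrix.charpoly_natDegree_eq_dim, Fintype.card_fin]
  have hgmap : (LT n F).charpoly.map (algebraMap K L) = (Lx y).charpoly := by
    rw [← Matrix.charpoly_map, map_LT (algebraMap K L) hF, hFy]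
    exact charpoly_conj (isUnit_vandermonde hy) (vandermonde_mul_LT hy)
  have hgs : (LT n F).charpoly.Separable := by
    rw [← separable_map (algebraMap K L), hgmap]
    exact h1
  obtain ⟨x, hx, hgx⟩ := exists_nod (algebraMap K L) hgm hgn hgs
  have hdet : (Mmat n (LT n F).charpoly (gsh (LT n F).charpoly)).det ≠ 0 := by
    intro h
    have h3 : IsCoprime (nod x) (gsh (nod x)) := by
      rw [← hgx, hgmap]
      exact h2
    apply loc_no_shift hx h3
    rw [← hgx, ← map_gsh (algebraMap K L), map_Mmat (algebraMap K L) hgm, ← loc_map_det, h,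
      map_zero]
  obtain ⟨hpar, w, hw, hwe, hXf⟩ := exists_paramsT hF hn hFs hgs hdet
  obtain ⟨c, hc, hcd, hcs, hc0, hcg⟩ := exists_gof hgm hgn hgs hpar
  obtain ⟨p, hp, hpq⟩ := exists_even hw hwe
  refine ⟨c, p, hc, hcd, hcs, hc0, hp, ?_, ?_⟩
  · rw [hcg]
    exact hdet
  · rw [fT, hcg, hpq, hXf]

private lemma loc_coeff_zero {K : Type*} [Field K] [CharZero K] {n : ℕ} {F : K[X]} (hF : F.Monic)
    (hn : F.natDegree = n) (hs : F.Separable) (h : K[X]) :
    (charT n F (X * h ^ 2)).coeff 0 = F.coeff 0 * (Mmat n F h).det ^ 2 := by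
  let L := AlgebraicClosure K
  let φ : K →+* L := algebraMap K L
  have hL : CharZero L := charZero_of_injective_algebraMap (algebraMap K L).injective
  obtain ⟨θ, hθ, hFθ⟩ := exists_nod φ hF hn hs
  have hnod0 : ∀ u : Fin n → L, (nod u).coeff 0 = ∏ i, (0 - u i) := by
    intro u
    rw [coeff_zero_eq_eval_zero, nod, eval_prod]
    refine Finset.prod_congr rfl fun i _ => ?_
    simp
  apply φ.injective
  rw [map_mul, map_pow, ← coeff_map, ← coeff_map, map_charT φ hF, hFθ, loc_map_det φ,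
    ← map_Mmat φ hF, hFθ, det_Mmat_nod hθ, charT_nod hθ, hnod0, hnod0, ← Finset.prod_pow,
    ← Finset.prod_mul_distrib]
  refine Finset.prod_congr rfl fun i _ => ?_
  rw [Polynomial.map_mul, Polynomial.map_pow, Polynomial.map_X, eval_mul, eval_pow, eval_X]
  ring

private lemma loc_Mmat_one {K : Type*} [Field K] {n : ℕ} {F : K[X]} (hF : F.Monic)
    (hn : F.natDegree = n) : Mmat n F 1 = 1 := by
  rw [← Bmat_X hF hn]
  ext i j
  simp only [Mmat, Bmat, Matrix.of_apply, mul_one]

/-- `F' = charT n F (X (1 + s h)^2)`, `Y' = Y det Bmat`, `Z' = Z det Mmat (1 + s h)` for `s → 0`;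
generic for all but finitely many `s`. -/
theorem local_dense {K : Type*} [NormedField K] [CharZero K]
    (hnt : ∃ a : K, a ≠ 0 ∧ ‖a‖ < 1) {n : ℕ} {F : K[X]} (hF : F.Monic) (hn : F.natDegree = n)
    {d1 d2 Y Z : K} (hd1 : d1 ≠ 0) (hd2 : d2 ≠ 0) (hY : Y ≠ 0) (hZ : Z ≠ 0)
    (hdisc : F.discr = d2 * Y ^ 2) (hcoef : F.coeff 0 = d1 * Z ^ 2) {ε : ℝ} (hε : 0 < ε) :
    ∃ (F' : K[X]) (Y' Z' : K), F'.Monic ∧ F'.natDegree = n ∧ F'.discr = d2 * Y' ^ 2 ∧
      F'.coeff 0 = d1 * Z' ^ 2 ∧ Y' ≠ 0 ∧ Z' ≠ 0 ∧ (∀ m, ‖F'.coeff m - F.coeff m‖ < ε) ∧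
      ‖Y' - Y‖ < ε ∧ ‖Z' - Z‖ < ε ∧ ∃ c p : K[X], ChartT n F' c p := by
  classical
  obtain ⟨a, ha0, ha1⟩ := hnt
  let L := AlgebraicClosure K
  let φ : K →+* L := algebraMap K L
  have hL : CharZero L := charZero_of_injective_algebraMap (algebraMap K L).injective
  have hFd : F.discr ≠ 0 := by
    rw [hdisc]
    exact mul_ne_zero hd2 (pow_ne_zero 2 hY)
  have hFs : F.Separable := separable_of_discr_ne_zero hF hFd
  obtain ⟨θ, hθ, hFθ⟩ := exists_nod φ hF hn hFs
  have hF0 : F.coeff 0 ≠ 0 := by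
    rw [hcoef]
    exact mul_ne_zero hd1 (pow_ne_zero 2 hZ)
  have hθ0 : ∀ i, θ i ≠ 0 := by
    intro i hi
    apply hF0
    apply φ.injective
    have h3 := eval_nod_self θ i
    rw [hi] at h3
    rw [map_zero, ← coeff_map, hFθ, coeff_zero_eq_eval_zero]
    exact h3
  obtain ⟨G, hG1, hG⟩ := exists_certT n L
  obtain ⟨P, hP⟩ := exists_gen_sq (K := K) hθ hθ0 hG1
  -- the changes of generator
  obtain ⟨hh, hhd⟩ : ∃ hh : K → K[X], hh = fun s => 1 + C s * (P - 1) := ⟨_, rfl⟩
  have hval : ∀ s i, ((X * hh s ^ 2 : K[X]).map φ).eval (θ i) =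
      θ i * (1 + φ s * (aeval (θ i) P - 1)) ^ 2 := by
    intro s i
    rw [hhd]
    simp only [Polynomial.map_mul, Polynomial.map_pow, Polynomial.map_X, Polynomial.map_add,
      Polynomial.map_one, Polynomial.map_sub, Polynomial.map_C, eval_mul, eval_pow, eval_X,
      eval_add, eval_one, eval_C, eval_sub]
    rw [eval_map, aeval_def]
  -- the certificate as a function of the parameter
  obtain ⟨Q, hQ⟩ : ∃ Q : L[X], ∀ z : L, Q.eval z =
      MvPolynomial.eval (fun i => θ i * (1 + z * (aeval (θ i) P - 1)) ^ 2) G := by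
    refine ⟨MvPolynomial.aeval (fun i => C (θ i) * (1 + X * C (aeval (θ i) P - 1)) ^ 2) G,
      fun z => ?_⟩
    rw [← Polynomial.coe_aeval_eq_eval, MvPolynomial.comp_aeval_apply,
      MvPolynomial.aeval_eq_eval]
    have h3 : (fun i => (Polynomial.aeval z)
        (C (θ i) * (1 + X * C (aeval (θ i) P - 1)) ^ 2 : L[X])) =
        fun i => θ i * (1 + z * (aeval (θ i) P - 1)) ^ 2 := by
      funext i
      simp
    rw [h3]
  have hQ0 : Q ≠ 0 := by
    rintro rfl
    apply hP
    have h3 := hQ 1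
    rw [Polynomial.eval_zero] at h3
    have h4 : (fun i => θ i * (aeval (θ i) P) ^ 2) =
        fun i => θ i * (1 + 1 * (aeval (θ i) P - 1)) ^ 2 := by
      funext i
      ring
    rw [h4]
    exact h3.symm
  have hinj : Function.Injective fun j : ℕ => φ (a ^ j) := by
    intro i j hij
    have h3 : a ^ i = a ^ j := φ.injective hij
    have h4 : ‖a‖ ^ i = ‖a‖ ^ j := by rw [← norm_pow, ← norm_pow, h3]
    exact (pow_right_strictAnti₀ (norm_pos_iff.2 ha0) ha1).injective h4
  have ev1 : ∀ᶠ j : ℕ in atTop, Q.eval (φ (a ^ j)) ≠ 0 := by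
    have h3 : {j : ℕ | Q.eval (φ (a ^ j)) = 0}.Finite := by
      have h4 : ((Q.roots.toFinset : Finset L) : Set L).Finite := Finset.finite_toSet _
      refine (h4.preimage (f := fun j : ℕ => φ (a ^ j)) hinj.injOn).subset ?_
      intro j hj
      simp only [Set.mem_preimage, Finset.mem_coe, Multiset.mem_toFinset]
      exact (mem_roots hQ0).2 hj
    have h5 := h3.eventually_cofinite_notMem
    rw [Nat.cofinite_eq_atTop] at h5
    exact h5
  -- convergence
  have hlim : Tendsto (fun j : ℕ => a ^ j) atTop (𝓝 0) :=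
    tendsto_pow_atTop_nhds_zero_of_norm_lt_one ha1
  have hch : CTB atTop (fun j : ℕ => hh (a ^ j)) 1 := by
    have h3 := (CTB.const (l := atTop (α := ℕ)) (1 : K[X])).add
      ((CTB.C hlim).mul (CTB.const (P - 1)))
    rw [C_0, zero_mul, add_zero] at h3
    rw [hhd]
    exact h3
  have hcT : CTB atTop (fun j : ℕ => X * hh (a ^ j) ^ 2) X := by
    have h3 := (CTB.const (l := atTop (α := ℕ)) (X : K[X])).mul (hch.pow 2)
    rw [one_pow, mul_one] at h3
    exact h3
  have hcF : CT atTop (fun j : ℕ => charT n F (X * hh (a ^ j) ^ 2)) F := by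
    have h3 := ctb_charT (n := n) (CTB.const (l := atTop (α := ℕ)) F) (fun _ => hF)
      (fun _ => hn) hF hn hcT
    rw [charT_X hF hn hFs] at h3
    exact h3
  have hcY : Tendsto (fun j : ℕ => Y * (Bmat n F (X * hh (a ^ j) ^ 2)).det) atTop (𝓝 Y) := by
    have h3 := tendsto_det_Bmat (n := n) (CTB.const (l := atTop (α := ℕ)) F) (fun _ => hF)
      (fun _ => hn) hF hn hcT
    rw [Bmat_X hF hn, Matrix.det_one] at h3
    have h4 := h3.const_mul Y
    rwa [mul_one] at h4
  have hcZ : Tendsto (fun j : ℕ => Z * (Mmat n F (hh (a ^ j))).det) atTop (𝓝 Z) := by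
    have h3 : Tendsto (fun j : ℕ => (Mmat n F (hh (a ^ j))).det) atTop
        (𝓝 (Mmat n F 1).det) := by
      apply tendsto_det
      intro i j
      simp only [Mmat, Matrix.of_apply]
      exact (CTB.modByMonic (CTB.const (l := atTop (α := ℕ)) F).1 (fun _ => hF) (fun _ => hn)
        hF hn ((CTB.const _).mul hch)).coeff _
    rw [loc_Mmat_one hF hn, Matrix.det_one] at h3
    have h4 := h3.const_mul Z
    rwa [mul_one] at h4
  have ev2 := hcY.eventually_ne hY
  have ev3 := hcZ.eventually_ne hZ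
  have ev4 : ∀ᶠ j : ℕ in atTop, ‖Y * (Bmat n F (X * hh (a ^ j) ^ 2)).det - Y‖ < ε := by
    simpa only [dist_eq_norm] using (Metric.tendsto_nhds.mp hcY) ε hε
  have ev5 : ∀ᶠ j : ℕ in atTop, ‖Z * (Mmat n F (hh (a ^ j))).det - Z‖ < ε := by
    simpa only [dist_eq_norm] using (Metric.tendsto_nhds.mp hcZ) ε hε
  have ev6 : ∀ᶠ j : ℕ in atTop, ∀ m : Fin (n + 1),
      ‖(charT n F (X * hh (a ^ j) ^ 2)).coeff m - F.coeff m‖ < ε := by
    rw [eventually_all]
    intro m
    simpa only [dist_eq_norm] using (Metric.tendsto_nhds.mp (hcF m)) ε hε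
  obtain ⟨j, hj1, hj2, hj3, hj4, hj5, hj6⟩ :=
    (ev1.and (ev2.and (ev3.and (ev4.and (ev5.and ev6))))).exists
  refine ⟨charT n F (X * hh (a ^ j) ^ 2), Y * (Bmat n F (X * hh (a ^ j) ^ 2)).det,
    Z * (Mmat n F (hh (a ^ j))).det, charT_monic _ _ _, natDegree_charT _ _ _, ?_, ?_, hj2, hj3,
    fun m => ?_, hj4, hj5, ?_⟩
  · rw [discr_charT hF hn hFs, hdisc]
    ring
  · rw [loc_coeff_zero hF hn hFs, hcoef]
    ring
  · by_cases hm : m < n + 1
    · exact hj6 ⟨m, hm⟩
    · have h3 : (charT n F (X * hh (a ^ j) ^ 2)).coeff m = 0 := by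
        apply coeff_eq_zero_of_natDegree_lt
        rw [natDegree_charT]; omega
      have h4 : F.coeff m = 0 := by
        apply coeff_eq_zero_of_natDegree_lt
        rw [hn]; omega
      rw [h3, h4, sub_zero, norm_zero]
      exact hε
  · have h3 : MvPolynomial.eval (fun i => ((X * hh (a ^ j) ^ 2 : K[X]).map φ).eval (θ i)) G ≠ 0 := by
      simp only [hval]
      rw [← hQ]
      exact hj1
    obtain ⟨hy, hsep, hcop⟩ := hG _ h3
    refine chartT_of_generic (L := L) (charT_monic _ _ _) (natDegree_charT _ _ _) hy ?_ hsep hcop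
    change (charT n F (X * hh (a ^ j) ^ 2)).map φ = _
    rw [map_charT φ hF, hFθ, charT_nod hθ]

end Pool.Agent.Lib.MP_12adaf_nt
end

section

/-!
# Weak approximation for `P(0) = d₁ z ^ 2`, `disc P = d₂ y ^ 2`
-/

namespace Pool.Agent.Lib.MP_12adaf_nt

set_option linter.unusedSectionVars false
set_option linter.unusedVariables false

open Finset Polynomial Filter Topology

private lemma tr_toPoly_ctb {k K : Type*} [Field k] [NormedField K] (φ : k →+* K) {N : ℕ}
    {u : Fin N → ℕ → k} {a : Fin N → K}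
    (h : ∀ m, Tendsto (fun j => φ (u m j)) atTop (𝓝 (a m))) :
    CTB atTop (fun j => (toPoly fun m => u m j).map φ) (toPoly a) := by
  have h1 : ∀ j, (toPoly fun m => u m j).map φ = ∑ m : Fin N, C (φ (u m j)) * X ^ (m : ℕ) := by
    intro j
    rw [map_toPoly]
    rfl
  simp only [h1]
  exact CTB.sum _ fun m _ => (CTB.C (h m)).mul (CTB.const _)

private lemma tr_monic_dec {K : Type*} [Field K] {N : ℕ} {g : K[X]} (hg : g.Monic)
    (hn : g.natDegree = N) : g = X ^ N + toPoly fun m : Fin N => g.coeff m := by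
  have h1 : (g - X ^ N).degree < ((N : ℕ) : WithBot ℕ) := by
    have h2 : g.degree = N := by rw [degree_eq_natDegree hg.ne_zero, hn]
    have := degree_sub_lt_left (p := g) (q := X ^ N) (by rw [h2, degree_X_pow])
      hg.ne_zero (by rw [hg.leadingCoeff, leadingCoeff_X_pow])
    rwa [h2] at this
  have h3 := toPoly_coeff h1
  have h4 : (fun m : Fin N => (g - X ^ N).coeff m) = fun m : Fin N => g.coeff m := by
    ext m
    rw [coeff_sub, coeff_X_pow, if_neg (by have := m.2; omega), sub_zero]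
  rw [h4] at h3
  rw [h3]; ring

private lemma tr_monic_toPoly {R : Type*} [CommRing R] [Nontrivial R] {N : ℕ} (c : Fin N → R) :
    (X ^ N + toPoly c).Monic ∧ (X ^ N + toPoly c).natDegree = N := by
  have h1 : (toPoly c).degree < (X ^ N : R[X]).degree := by
    rw [degree_X_pow]; exact degree_toPoly_lt c
  refine ⟨monic_X_pow_add (degree_toPoly_lt c), ?_⟩
  rw [natDegree_add_eq_left_of_degree_lt h1, natDegree_X_pow]

private lemma tr_eval_one_toPoly {R : Type*} [CommRing R] {N : ℕ} (c : Fin N → R) :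
    (X ^ N + toPoly c).eval 1 = 1 + ∑ m, c m := by
  rw [eval_add, eval_pow, eval_X, one_pow, toPoly, eval_finsetSum]
  simp

section Finish

variable {k : Type*} [Field k] [CharZero k] {ι : Type*} [Fintype ι] [Nonempty ι]
    {K : ι → Type*} [∀ i, NormedField (K i)] [∀ i, CharZero (K i)] (φ : ∀ i, k →+* K i)

/-- The end of the proof: exact global parameters converging to the local ones. -/
theorem finish_TR {n : ℕ} (hn : 3 ≤ n)
    {d1 d2 : k} (hd1 : d1 ≠ 0) (hd2 : d2 ≠ 0) (F : ∀ i, (K i)[X]) (Y Z : ∀ i, K i)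
    (hF : ∀ i, (F i).Monic) (hFn : ∀ i, (F i).natDegree = n)
    (hdisc : ∀ i, (F i).discr = φ i d2 * Y i ^ 2)
    (hY : ∀ i, Y i ≠ 0) (hZ : ∀ i, Z i ≠ 0)
    (c p : ∀ i, (K i)[X]) (y1 z1 : ∀ i, K i) (hch : ∀ i, ChartT n (F i) (c i) (p i))
    (hy1 : ∀ i, y1 i * k1T n (c i) (p i) = Y i)
    (hz1 : ∀ i, z1 i * k2T n (c i) (p i) = Z i * Y i)
    (cq pq : ℕ → k[X]) (uy uz : ℕ → k)
    (hcqm : ∀ j, (cq j).Monic) (hcqd : ∀ j, (cq j).natDegree = n / 2)
    (hcq1 : ∀ j, (cq j).eval 1 = d2 * uy j ^ 2)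
    (hcq0 : ∀ᶠ j in atTop, (-2 * (pq j).coeff 0) ^ (n % 2) * (cq j).coeff 0 =
      d1 * d2 * uz j ^ 2)
    (hCc : ∀ i, CTB atTop (fun j => (cq j).map (φ i)) (c i))
    (hCp : ∀ i, CTB atTop (fun j => (pq j).map (φ i)) (p i))
    (huy : ∀ i, Tendsto (fun j => φ i (uy j)) atTop (𝓝 (y1 i)))
    (huz : ∀ i, Tendsto (fun j => φ i (uz j)) atTop (𝓝 (z1 i))) {ε : ℝ} (hε : 0 < ε) :
    ∃ (P : k[X]) (y z : k), P.Monic ∧ P.natDegree = n ∧ P.discr = d2 * y ^ 2 ∧
      P.coeff 0 = d1 * z ^ 2 ∧ y ≠ 0 ∧ z ≠ 0 ∧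
      ∀ i, (∀ m, ‖φ i (P.coeff m) - (F i).coeff m‖ < ε) ∧ ‖φ i y - Y i‖ < ε ∧
        ‖φ i z - Z i‖ < ε := by
  have hm' : ∀ i j, ((cq j).map (φ i)).Monic := fun i j => (hcqm j).map _
  have hd' : ∀ i j, ((cq j).map (φ i)).natDegree = n / 2 := fun i j => by
    rw [natDegree_map, hcqd]
  have hfm : ∀ j, (fT n (cq j) (pq j)).Monic := fun j => Matrix.charpoly_monic _
  have hfd : ∀ j, (fT n (cq j) (pq j)).natDegree = n := fun j => by
    rw [fT, Matrix.charpoly_natDegree_eq_dim, Fintype.card_fin]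
  have hcf := fun i => ct_fT (hCc i) (hCp i) (hm' i) (hd' i) (hch i).1 (hch i).2.1 (hch i).2.2.1
    (hch i).2.2.2.1 (hch i).2.2.2.2.2.1
  have hfF : ∀ i, fT n (c i) (p i) = F i := fun i => (hch i).2.2.2.2.2.2
  have hCf : ∀ i, CTB atTop (fun j => (fT n (cq j) (pq j)).map (φ i)) (F i) := by
    intro i
    rw [← hfF i]
    simp only [(map_fT (φ i) (hcqm _)).1]
    exact (hcf i).1
  have hk1 : ∀ i, k1T n (c i) (p i) ≠ 0 := fun i h => hY i (by rw [← hy1 i, h, mul_zero])
  have hk2 : ∀ i, k2T n (c i) (p i) ≠ 0 := fun i h =>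
    mul_ne_zero (hZ i) (hY i) (by rw [← hz1 i, h, mul_zero])
  have hy1' : ∀ i, y1 i ≠ 0 := fun i h => hY i (by rw [← hy1 i, h, zero_mul])
  obtain ⟨yq, hyq⟩ : ∃ yq : ℕ → k, yq = fun j => uy j * k1T n (cq j) (pq j) := ⟨_, rfl⟩
  obtain ⟨zq, hzq⟩ : ∃ zq : ℕ → k, zq = fun j => uz j * k2T n (cq j) (pq j) / yq j := ⟨_, rfl⟩
  have hyY : ∀ i, Tendsto (fun j => φ i (yq j)) atTop (𝓝 (Y i)) := by
    intro i
    have h3 := (huy i).mul (hcf i).2.1
    rw [hy1 i] at h3
    refine h3.congr fun j => ?_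
    rw [hyq]
    dsimp only
    rw [map_mul, (map_fT (φ i) (hcqm j)).2.1]
  have hzZ : ∀ i, Tendsto (fun j => φ i (zq j)) atTop (𝓝 (Z i)) := by
    intro i
    have h3 := ((huz i).mul (hcf i).2.2).div (hyY i) (hY i)
    rw [hz1 i, mul_div_cancel_right₀ _ (hY i)] at h3
    refine h3.congr fun j => ?_
    rw [hzq]
    dsimp only
    rw [map_div₀, map_mul, (map_fT (φ i) (hcqm j)).2.2]
    rfl
  obtain ⟨i₀⟩ := ‹Nonempty ι›
  have ev1 : ∀ᶠ j in atTop, yq j ≠ 0 := by
    have := (hyY i₀).eventually_ne (hY i₀)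
    filter_upwards [this] with j hj h
    exact hj (by rw [h, map_zero])
  have ev1' : ∀ᶠ j in atTop, zq j ≠ 0 := by
    have := (hzZ i₀).eventually_ne (hZ i₀)
    filter_upwards [this] with j hj h
    exact hj (by rw [h, map_zero])
  have ev2 : ∀ᶠ j in atTop, (cq j).discr ≠ 0 := by
    have h1 := ((hCc i₀).1.discr (hm' i₀) (hd' i₀) (hch i₀).1 (hch i₀).2.1).eventually_ne
      (discr_ne_zero_of_separable (hch i₀).1 (hch i₀).2.2.1)
    filter_upwards [h1] with j hj h
    apply hj
    rw [discr_map_monic (φ i₀) (hcqm j), h, map_zero]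
  have ev2' : ∀ᶠ j in atTop, (cq j).coeff 0 ≠ 0 := by
    have h1 := ((hCc i₀).coeff 0).eventually_ne (hch i₀).2.2.2.1
    filter_upwards [h1] with j hj h
    apply hj
    rw [coeff_map, h, map_zero]
  have hFsep : (F i₀).Separable := by
    apply separable_of_discr_ne_zero (hF i₀)
    rw [hdisc i₀]
    exact mul_ne_zero ((map_ne_zero (φ i₀)).mpr hd2) (pow_ne_zero 2 (hY i₀))
  have ev3 : ∀ᶠ j in atTop, (fT n (cq j) (pq j)).discr ≠ 0 := by
    have h1 := ((hCf i₀).1.discr (fun j => (hfm j).map _)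
      (fun j => by rw [natDegree_map]; exact hfd j) (hF i₀) (hFn i₀)).eventually_ne
      (discr_ne_zero_of_separable (hF i₀) hFsep)
    filter_upwards [h1] with j hj h
    apply hj
    rw [discr_map_monic (φ i₀) (hfm j), h, map_zero]
  have ev4 : ∀ᶠ j in atTop, ∀ i, ‖φ i (yq j) - Y i‖ < ε := by
    rw [eventually_all]
    intro i
    have := (Metric.tendsto_nhds.mp (hyY i)) ε hε
    simpa only [dist_eq_norm] using this
  have ev4' : ∀ᶠ j in atTop, ∀ i, ‖φ i (zq j) - Z i‖ < ε := by
    rw [eventually_all]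
    intro i
    have := (Metric.tendsto_nhds.mp (hzZ i)) ε hε
    simpa only [dist_eq_norm] using this
  have ev5 : ∀ᶠ j in atTop, ∀ i, ∀ m : Fin (n + 1),
      ‖φ i ((fT n (cq j) (pq j)).coeff m) - (F i).coeff m‖ < ε := by
    rw [eventually_all]
    intro i
    rw [eventually_all]
    intro m
    have := (Metric.tendsto_nhds.mp ((hCf i).1 m)) ε hε
    simpa only [dist_eq_norm, coeff_map] using this
  obtain ⟨j, hj1, hj1', hj2, hj2', hj3, hj4, hj4', hj5, hj6⟩ := (ev1.and (ev1'.and (ev2.and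
    (ev2'.and (ev3.and (ev4.and (ev4'.and (ev5.and hcq0)))))))).exists
  have hcqs : (cq j).Separable := separable_of_discr_ne_zero (hcqm j) hj2
  have hfsep : (fT n (cq j) (pq j)).Separable := separable_of_discr_ne_zero (hfm j) hj3
  obtain ⟨e1, e2⟩ := discr_fT (by omega : 2 ≤ n) (hcqm j) (hcqd j) hcqs hj2' hfsep
  have hdy : (fT n (cq j) (pq j)).discr = d2 * yq j ^ 2 := by
    rw [e1, hcq1 j, hyq]
    ring
  refine ⟨fT n (cq j) (pq j), yq j, zq j, hfm j, hfd j, hdy, ?_, hj1, hj1',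
    fun i => ⟨fun m => ?_, hj4 i, hj4' i⟩⟩
  · rw [hj6, hdy] at e2
    have h1 : zq j * yq j = uz j * k2T n (cq j) (pq j) := by
      rw [hzq]
      dsimp only
      rw [div_mul_cancel₀ _ hj1]
    have h2 : d2 * yq j ^ 2 ≠ 0 := mul_ne_zero hd2 (pow_ne_zero 2 hj1)
    apply mul_right_cancel₀ h2
    rw [e2]
    linear_combination (-(d1 * d2)) * (zq j * yq j + uz j * k2T n (cq j) (pq j)) * h1
  · by_cases hm : m < n + 1
    · exact hj5 i ⟨m, hm⟩
    · have h1 : (fT n (cq j) (pq j)).coeff m = 0 := by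
        apply coeff_eq_zero_of_natDegree_lt
        rw [hfd j]; omega
      have h2 : (F i).coeff m = 0 := by
        apply coeff_eq_zero_of_natDegree_lt
        rw [hFn i]; omega
      rw [h1, h2, map_zero, sub_zero, norm_zero]
      exact hε

end Finish

/-- Approximation of points of the chart. -/
theorem global_chart {k : Type*} [Field k] [CharZero k] {ι : Type*} [Fintype ι] [Nonempty ι]
    (K : ι → Type*) [∀ i, NormedField (K i)] [∀ i, CharZero (K i)] (φ : ∀ i, k →+* K i)
    (hdense : DenseRange (fun (q : k) (i : ι) => φ i q)) {n : ℕ} (hn : 3 ≤ n)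
    {d1 d2 : k} (hd1 : d1 ≠ 0) (hd2 : d2 ≠ 0) (F : ∀ i, (K i)[X]) (Y Z : ∀ i, K i)
    (hF : ∀ i, (F i).Monic) (hFn : ∀ i, (F i).natDegree = n)
    (hdisc : ∀ i, (F i).discr = φ i d2 * Y i ^ 2)
    (hcoef : ∀ i, (F i).coeff 0 = φ i d1 * Z i ^ 2) (hY : ∀ i, Y i ≠ 0) (hZ : ∀ i, Z i ≠ 0)
    (hch : ∀ i, ∃ c p : (K i)[X], ChartT n (F i) c p) {ε : ℝ} (hε : 0 < ε) :
    ∃ (P : k[X]) (y z : k), P.Monic ∧ P.natDegree = n ∧ P.discr = d2 * y ^ 2 ∧
      P.coeff 0 = d1 * z ^ 2 ∧ y ≠ 0 ∧ z ≠ 0 ∧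
      ∀ i, (∀ m, ‖φ i (P.coeff m) - (F i).coeff m‖ < ε) ∧ ‖φ i y - Y i‖ < ε ∧
        ‖φ i z - Z i‖ < ε := by
  have hseq : ∀ x : ∀ i, K i, ∃ u : ℕ → k, ∀ i, Tendsto (fun j => φ i (u j)) atTop (𝓝 (x i)) := by
    intro x
    have hx : x ∈ closure (Set.range fun (q : k) (i : ι) => φ i q) := hdense x
    obtain ⟨w, hw, hlim⟩ := mem_closure_iff_seq_limit.mp hx
    choose u hu using hw
    refine ⟨u, fun i => ?_⟩
    have := (tendsto_pi_nhds.mp hlim) i
    refine this.congr fun j => ?_
    rw [← hu j]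
  choose c p hcp using hch
  have hn2 : 2 ≤ n := by omega
  have hsep : ∀ i, (fT n (c i) (p i)).Separable := fun i => by
    rw [(hcp i).2.2.2.2.2.2]
    apply separable_of_discr_ne_zero (hF i)
    rw [hdisc i]
    exact mul_ne_zero ((map_ne_zero (φ i)).mpr hd2) (pow_ne_zero 2 (hY i))
  have hrel := fun i => discr_fT hn2 (hcp i).1 (hcp i).2.1 (hcp i).2.2.1 (hcp i).2.2.2.1 (hsep i)
  have hrel1 : ∀ i, φ i d2 * Y i ^ 2 = (c i).eval 1 * k1T n (c i) (p i) ^ 2 := fun i => by
    rw [← (hrel i).1, (hcp i).2.2.2.2.2.2, hdisc i]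
  have hrel2 : ∀ i, φ i d1 * Z i ^ 2 * (φ i d2 * Y i ^ 2) =
      ((-2 * (p i).coeff 0) ^ (n % 2) * (c i).coeff 0) * k2T n (c i) (p i) ^ 2 := fun i => by
    rw [← (hrel i).2, (hcp i).2.2.2.2.2.2, hdisc i, hcoef i]
  have hφ1 : ∀ i, φ i d1 ≠ 0 := fun i => (map_ne_zero (φ i)).mpr hd1
  have hφ2 : ∀ i, φ i d2 ≠ 0 := fun i => (map_ne_zero (φ i)).mpr hd2
  have hA : ∀ i, φ i d2 * Y i ^ 2 ≠ 0 := fun i => mul_ne_zero (hφ2 i) (pow_ne_zero 2 (hY i))
  have hB : ∀ i, φ i d1 * Z i ^ 2 * (φ i d2 * Y i ^ 2) ≠ 0 := fun i =>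
    mul_ne_zero (mul_ne_zero (hφ1 i) (pow_ne_zero 2 (hZ i))) (hA i)
  have hk1 : ∀ i, k1T n (c i) (p i) ≠ 0 := fun i h => hA i (by rw [hrel1 i, h]; ring)
  have hk2 : ∀ i, k2T n (c i) (p i) ≠ 0 := fun i h => hB i (by rw [hrel2 i, h]; ring)
  obtain ⟨y1, hy1⟩ : ∃ y1 : ∀ i, K i, y1 = fun i => Y i / k1T n (c i) (p i) := ⟨_, rfl⟩
  obtain ⟨z1, hz1⟩ : ∃ z1 : ∀ i, K i, z1 = fun i => Z i * Y i / k2T n (c i) (p i) := ⟨_, rfl⟩
  have hc1 : ∀ i, (c i).eval 1 = φ i d2 * y1 i ^ 2 := fun i => by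
    rw [hy1]
    have := hk1 i
    field_simp
    linear_combination -hrel1 i
  have hc0 : ∀ i, (-2 * (p i).coeff 0) ^ (n % 2) * (c i).coeff 0 =
      φ i d1 * φ i d2 * z1 i ^ 2 := fun i => by
    rw [hz1]
    have := hk2 i
    field_simp
    linear_combination -hrel2 i
  choose uc huc using fun m : Fin (n / 2) => hseq fun i => (c i).coeff m
  choose up hup using fun m : Fin ((n + 1) / 2) => hseq fun i => (p i).coeff m
  obtain ⟨uy, huy⟩ := hseq y1
  obtain ⟨uz, huz⟩ := hseq z1
  have hy1' : ∀ i, y1 i * k1T n (c i) (p i) = Y i := fun i => by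
    rw [hy1]; exact div_mul_cancel₀ _ (hk1 i)
  have hz1' : ∀ i, z1 i * k2T n (c i) (p i) = Z i * Y i := fun i => by
    rw [hz1]; exact div_mul_cancel₀ _ (hk2 i)
  have hn0 : 0 < n / 2 := by omega
  have hpdec : ∀ i, toPoly (fun m : Fin ((n + 1) / 2) => (p i).coeff m) = p i := fun i =>
    toPoly_coeff (hcp i).2.2.2.2.1
  have hcdec : ∀ i, c i = X ^ (n / 2) + toPoly fun m : Fin (n / 2) => (c i).coeff m := fun i =>
    tr_monic_dec (hcp i).1 (hcp i).2.1
  have hc1' : ∀ i, 1 + ∑ m : Fin (n / 2), (c i).coeff m = φ i d2 * y1 i ^ 2 := fun i => by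
    rw [← hc1 i, ← tr_eval_one_toPoly, ← hcdec i]
  rcases Nat.even_or_odd n with hev | hodd
  · -- `n` even
    have hmod : n % 2 = 0 := Nat.even_iff.mp hev
    have hn1 : 1 < n / 2 := by obtain ⟨m, hm⟩ := hev; omega
    obtain ⟨a0, ha0⟩ : ∃ a0 : ℕ → k, a0 = fun j => d1 * d2 * uz j ^ 2 := ⟨_, rfl⟩
    obtain ⟨rest, hrest⟩ : ∃ rest : ℕ → k, rest = fun j =>
      ∑ m ∈ (univ.erase (⟨0, hn0⟩ : Fin (n / 2))).erase ⟨1, hn1⟩, uc m j := ⟨_, rfl⟩
    obtain ⟨a1, ha1⟩ : ∃ a1 : ℕ → k, a1 = fun j => d2 * uy j ^ 2 - 1 - a0 j - rest j := ⟨_, rfl⟩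
    have hne : (⟨1, hn1⟩ : Fin (n / 2)) ≠ ⟨0, hn0⟩ := by
      intro h
      have := congrArg Fin.val h
      simp at this
    obtain ⟨vc, hvcdef⟩ : ∃ vc : Fin (n / 2) → ℕ → k, vc = fun m j =>
        if m = ⟨0, hn0⟩ then a0 j else if m = ⟨1, hn1⟩ then a1 j else uc m j := ⟨_, rfl⟩
    have hvc : ∀ i m, Tendsto (fun j => φ i (vc m j)) atTop (𝓝 ((c i).coeff m)) := by
      intro i m
      have hlim0 : Tendsto (fun j => φ i (a0 j)) atTop (𝓝 ((c i).coeff 0)) := by
        have h1 := hc0 i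
        rw [hmod, pow_zero, one_mul] at h1
        rw [h1, ha0]
        simp only [map_mul, map_pow]
        exact ((huz i).pow 2).const_mul _
      by_cases hm : m = ⟨0, hn0⟩
      · simp only [hvcdef, if_pos hm]
        rw [hm]
        exact hlim0
      · by_cases hm1 : m = ⟨1, hn1⟩
        · simp only [hvcdef, if_neg hm, if_pos hm1]
          have h1 := hc1' i
          rw [← Finset.add_sum_erase _ _ (Finset.mem_univ (⟨0, hn0⟩ : Fin (n / 2))),
            ← Finset.add_sum_erase _ _ (Finset.mem_erase.mpr ⟨hne, Finset.mem_univ _⟩)] at h1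
          have h2 : (c i).coeff (m : ℕ) = φ i d2 * y1 i ^ 2 - 1 - (c i).coeff 0 -
              ∑ m ∈ (univ.erase (⟨0, hn0⟩ : Fin (n / 2))).erase ⟨1, hn1⟩, (c i).coeff m := by
            rw [hm1]
            linear_combination h1
          rw [h2, ha1, hrest]
          simp only [map_sub, map_mul, map_pow, map_one, map_sum]
          exact (((((huy i).pow 2).const_mul _).sub tendsto_const_nhds).sub hlim0).sub
            (tendsto_finsetSum _ fun m _ => huc m i)
        · simp only [hvcdef, if_neg hm, if_neg hm1]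
          exact huc m i
    refine finish_TR φ hn hd1 hd2 F Y Z hF hFn hdisc hY hZ c p y1 z1 hcp hy1' hz1'
      (fun j => X ^ (n / 2) + toPoly fun m => vc m j) (fun j => toPoly fun m => up m j) uy uz
      (fun j => (tr_monic_toPoly _).1) (fun j => (tr_monic_toPoly _).2) (fun j => ?_)
      (Eventually.of_forall fun j => ?_) (fun i => ?_) (fun i => ?_) huy huz hε
    · rw [tr_eval_one_toPoly, ← Finset.add_sum_erase _ _ (Finset.mem_univ (⟨0, hn0⟩ : Fin (n / 2))),
        ← Finset.add_sum_erase _ _ (Finset.mem_erase.mpr ⟨hne, Finset.mem_univ _⟩)]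
      have h1 : ∑ m ∈ (univ.erase (⟨0, hn0⟩ : Fin (n / 2))).erase ⟨1, hn1⟩, vc m j = rest j := by
        rw [hrest]
        refine Finset.sum_congr rfl fun m hm => ?_
        rw [Finset.mem_erase, Finset.mem_erase] at hm
        simp only [hvcdef, if_neg hm.1, if_neg hm.2.1]
      rw [h1]
      simp only [hvcdef, if_true, if_neg hne]
      rw [ha1]
      ring
    · rw [hmod, pow_zero, one_mul, coeff_add, coeff_X_pow, if_neg hn0.ne, zero_add]
      have h1 : (toPoly fun m => vc m j).coeff 0 = vc ⟨0, hn0⟩ j := by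
        have := coeff_toPoly (fun m => vc m j) ⟨0, hn0⟩
        exact this
      rw [h1]
      simp only [hvcdef, if_true]
      rw [ha0]
    · rw [hcdec i]
      simp only [Polynomial.map_add, Polynomial.map_pow, Polynomial.map_X]
      exact (CTB.const _).add (tr_toPoly_ctb (φ i) (hvc i))
    · rw [← hpdec i]
      exact tr_toPoly_ctb (φ i) fun m => hup m i
  · -- `n` odd
    have hmod : n % 2 = 1 := Nat.odd_iff.mp hodd
    have hn3 : 0 < (n + 1) / 2 := by omega
    obtain ⟨rest, hrest⟩ : ∃ rest : ℕ → k, rest = fun j =>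
      ∑ m ∈ univ.erase (⟨0, hn0⟩ : Fin (n / 2)), uc m j := ⟨_, rfl⟩
    obtain ⟨a0, ha0⟩ : ∃ a0 : ℕ → k, a0 = fun j => d2 * uy j ^ 2 - 1 - rest j := ⟨_, rfl⟩
    obtain ⟨vc, hvcdef⟩ : ∃ vc : Fin (n / 2) → ℕ → k, vc = fun m j =>
        if m = ⟨0, hn0⟩ then a0 j else uc m j := ⟨_, rfl⟩
    obtain ⟨vp, hvpdef⟩ : ∃ vp : Fin ((n + 1) / 2) → ℕ → k, vp = fun m j =>
        if m = ⟨0, hn3⟩ then d1 * d2 * uz j ^ 2 / (-2 * a0 j) else up m j := ⟨_, rfl⟩
    have hlim0 : ∀ i, Tendsto (fun j => φ i (a0 j)) atTop (𝓝 ((c i).coeff 0)) := fun i => by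
      have h1 := hc1' i
      rw [← Finset.add_sum_erase _ _ (Finset.mem_univ (⟨0, hn0⟩ : Fin (n / 2)))] at h1
      have h2 : (c i).coeff 0 = φ i d2 * y1 i ^ 2 - 1 -
          ∑ m ∈ univ.erase (⟨0, hn0⟩ : Fin (n / 2)), (c i).coeff m := by
        linear_combination h1
      rw [h2, ha0, hrest]
      simp only [map_sub, map_mul, map_pow, map_one, map_sum]
      exact ((((huy i).pow 2).const_mul _).sub tendsto_const_nhds).sub
        (tendsto_finsetSum _ fun m _ => huc m i)
    have hvc : ∀ i m, Tendsto (fun j => φ i (vc m j)) atTop (𝓝 ((c i).coeff m)) := by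
      intro i m
      by_cases hm : m = ⟨0, hn0⟩
      · simp only [hvcdef, if_pos hm]
        rw [hm]
        exact hlim0 i
      · simp only [hvcdef, if_neg hm]
        exact huc m i
    have h20 : ∀ i, -2 * (c i).coeff 0 ≠ 0 := fun i =>
      mul_ne_zero (neg_ne_zero.mpr two_ne_zero) (hcp i).2.2.2.1
    have hvp : ∀ i m, Tendsto (fun j => φ i (vp m j)) atTop (𝓝 ((p i).coeff m)) := by
      intro i m
      by_cases hm : m = ⟨0, hn3⟩
      · simp only [hvpdef, if_pos hm]
        have h1 := hc0 i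
        rw [hmod, pow_one] at h1
        have h2 : (p i).coeff (m : ℕ) = φ i d1 * φ i d2 * z1 i ^ 2 / (-2 * (c i).coeff 0) := by
          rw [eq_div_iff (h20 i), hm]
          linear_combination h1
        rw [h2]
        simp only [map_div₀, map_mul, map_pow, map_neg, map_ofNat]
        exact (((huz i).pow 2).const_mul _).div ((hlim0 i).const_mul _) (h20 i)
      · simp only [hvpdef, if_neg hm]
        exact hup m i
    have hcq00 : ∀ j, (X ^ (n / 2) + toPoly fun m => vc m j : k[X]).coeff 0 = a0 j := by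
      intro j
      rw [coeff_add, coeff_X_pow, if_neg hn0.ne, zero_add]
      have h1 : (toPoly fun m => vc m j).coeff 0 = vc ⟨0, hn0⟩ j := by
        have := coeff_toPoly (fun m => vc m j) ⟨0, hn0⟩
        exact this
      rw [h1]
      simp only [hvcdef, if_true]
    obtain ⟨i₀⟩ := ‹Nonempty ι›
    have eva : ∀ᶠ j in atTop, a0 j ≠ 0 := by
      filter_upwards [(hlim0 i₀).eventually_ne (hcp i₀).2.2.2.1] with j hj h
      exact hj (by rw [h, map_zero])
    have : Nonempty ι := ⟨i₀⟩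
    refine finish_TR φ hn hd1 hd2 F Y Z hF hFn hdisc hY hZ c p y1 z1 hcp hy1' hz1'
      (fun j => X ^ (n / 2) + toPoly fun m => vc m j) (fun j => toPoly fun m => vp m j) uy uz
      (fun j => (tr_monic_toPoly _).1) (fun j => (tr_monic_toPoly _).2) (fun j => ?_)
      ?_ (fun i => ?_) (fun i => ?_) huy huz hε
    · rw [tr_eval_one_toPoly, ← Finset.add_sum_erase _ _ (Finset.mem_univ (⟨0, hn0⟩ : Fin (n / 2)))]
      have h1 : ∑ m ∈ univ.erase (⟨0, hn0⟩ : Fin (n / 2)), vc m j = rest j := by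
        rw [hrest]
        refine Finset.sum_congr rfl fun m hm => ?_
        rw [Finset.mem_erase] at hm
        simp only [hvcdef, if_neg hm.1]
      rw [h1]
      simp only [hvcdef, if_true]
      rw [ha0]
      ring
    · filter_upwards [eva] with j hj
      rw [hmod, pow_one, hcq00 j]
      have h1 : (toPoly fun m => vp m j).coeff 0 = vp ⟨0, hn3⟩ j := by
        have := coeff_toPoly (fun m => vp m j) ⟨0, hn3⟩
        exact this
      rw [h1]
      simp only [hvpdef, if_true]
      field_simp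
    · rw [hcdec i]
      simp only [Polynomial.map_add, Polynomial.map_pow, Polynomial.map_X]
      exact (CTB.const _).add (tr_toPoly_ctb (φ i) (hvc i))
    · rw [← hpdec i]
      exact tr_toPoly_ctb (φ i) fun m => hvp i m

theorem global_TR {k : Type*} [Field k] [CharZero k] {ι : Type*} [Fintype ι] [Nonempty ι]
    (K : ι → Type*) [∀ i, NormedField (K i)] [∀ i, CharZero (K i)] (φ : ∀ i, k →+* K i)
    (hdense : DenseRange (fun (q : k) (i : ι) => φ i q))
    (hnt : ∀ i, ∃ a : K i, a ≠ 0 ∧ ‖a‖ < 1) {n : ℕ} (hn : 3 ≤ n)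
    {d1 d2 : k} (hd1 : d1 ≠ 0) (hd2 : d2 ≠ 0) (F : ∀ i, (K i)[X]) (Y Z : ∀ i, K i)
    (hF : ∀ i, (F i).Monic) (hFn : ∀ i, (F i).natDegree = n)
    (hdisc : ∀ i, (F i).discr = φ i d2 * Y i ^ 2)
    (hcoef : ∀ i, (F i).coeff 0 = φ i d1 * Z i ^ 2) (hY : ∀ i, Y i ≠ 0) (hZ : ∀ i, Z i ≠ 0)
    {ε : ℝ} (hε : 0 < ε) :
    ∃ (P : k[X]) (y z : k), P.Monic ∧ P.natDegree = n ∧ P.discr = d2 * y ^ 2 ∧
      P.coeff 0 = d1 * z ^ 2 ∧ y ≠ 0 ∧ z ≠ 0 ∧
      ∀ i, (∀ m, ‖φ i (P.coeff m) - (F i).coeff m‖ < ε) ∧ ‖φ i y - Y i‖ < ε ∧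
        ‖φ i z - Z i‖ < ε := by
  have hdd1 : ∀ i, φ i d1 ≠ 0 := fun i => (map_ne_zero (φ i)).mpr hd1
  have hdd2 : ∀ i, φ i d2 ≠ 0 := fun i => (map_ne_zero (φ i)).mpr hd2
  choose F' Y' Z' h1 h2 h3 h4 h5 h6 h7 h8 h9 h10 using fun i =>
    local_dense (hnt i) (hF i) (hFn i) (hdd1 i) (hdd2 i) (hY i) (hZ i) (hdisc i) (hcoef i)
      (half_pos hε)
  obtain ⟨P, y, z, g1, g2, g3, g4, g5, g6, g7⟩ := global_chart K φ hdense hn hd1 hd2 F' Y' Z' h1
    h2 h3 h4 h5 h6 h10 (half_pos hε)
  refine ⟨P, y, z, g1, g2, g3, g4, g5, g6, fun i => ⟨fun m => ?_, ?_, ?_⟩⟩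
  · calc ‖φ i (P.coeff m) - (F i).coeff m‖ ≤ ‖φ i (P.coeff m) - (F' i).coeff m‖ +
          ‖(F' i).coeff m - (F i).coeff m‖ := norm_sub_le_norm_sub_add_norm_sub _ _ _
      _ < ε / 2 + ε / 2 := add_lt_add ((g7 i).1 m) (h7 i m)
      _ = ε := add_halves ε
  · calc ‖φ i y - Y i‖ ≤ ‖φ i y - Y' i‖ + ‖Y' i - Y i‖ := norm_sub_le_norm_sub_add_norm_sub _ _ _
      _ < ε / 2 + ε / 2 := add_lt_add (g7 i).2.1 (h8 i)
      _ = ε := add_halves ε
  · calc ‖φ i z - Z i‖ ≤ ‖φ i z - Z' i‖ + ‖Z' i - Z i‖ := norm_sub_le_norm_sub_add_norm_sub _ _ _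
      _ < ε / 2 + ε / 2 := add_lt_add (g7 i).2.2 (h9 i)
      _ = ε := add_halves ε

end Pool.Agent.Lib.MP_12adaf_nt
end

section

/-!
# Rationality of `disc P = d y ^ 2`, `P(0) = e z ^ 2`
-/

namespace Pool.Agent.Lib.MP_12adaf_nt

set_option linter.unusedSectionVars false
set_option linter.unusedVariables false

open Finset Polynomial

universe u

theorem exists_certZ (n : ℕ) : ∃ F : MvPolynomial (Fin n) ℤ, F ≠ 0 ∧
    ∀ (L : Type u) [Field L] [CharZero L] (y : Fin n → L),
      MvPolynomial.eval₂ (Int.castRingHom L) y F ≠ 0 →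
      Function.Injective y ∧ (Lx y).charpoly.Separable ∧
        IsCoprime (Lx y).charpoly (gsh (Lx y).charpoly) := by
  have hF : ∀ (L : Type u) [Field L] (y : Fin n → L),
      MvPolynomial.eval₂ (Int.castRingHom L) y
        (trgC fun i : Fin n => (MvPolynomial.X i : MvPolynomial (Fin n) ℤ)) = trgC y := by
    intro L _ y
    rw [← MvPolynomial.coe_eval₂Hom, trg_map_C]
    congr 1
    funext i
    simp
  refine ⟨trgC fun i => MvPolynomial.X i, ?_, fun L _ _ y hy => ?_⟩
  · intro h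
    have h1 := trg_C_nat_ne_zero n ℚ
    apply h1
    have h2 : trgC (fun i : Fin n => (((i : ℕ) : ℤ) + 1)) = 0 := by
      have h3 := trg_map_C (MvPolynomial.eval (fun i : Fin n => (((i : ℕ) : ℤ) + 1)))
        (fun i : Fin n => (MvPolynomial.X i : MvPolynomial (Fin n) ℤ))
      rw [h, map_zero] at h3
      rw [h3]
      congr 1
      funext i
      simp
    have h4 := trg_map_C (Int.castRingHom ℚ) (fun i : Fin n => (((i : ℕ) : ℤ) + 1))
    rw [h2, map_zero] at h4
    rw [h4]
    congr 1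
    funext i
    simp
  · rw [hF] at hy
    exact (trg_C_ne_zero_iff y).mp hy

/-- A field generated by `n` elements and of transcendence degree `n` is purely transcendental. -/
lemma algInd_of_gen {K F : Type*} [Field K] [Field F] [Algebra K F] {n : ℕ} {a : Fin n → F}
    (ha : IsTranscendenceBasis K a) {t : Fin n → F}
    (htop : IntermediateField.adjoin K (Set.range t) = ⊤) : AlgebraicIndependent K t := by
  refine algInd_of_adjoin ha (y := 0) isAlgebraic_zero ?_
  rw [eq_top_iff, ← htop]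
  exact IntermediateField.adjoin.mono K _ _ (Set.subset_insert _ _)

/-- The roots of a generic polynomial are algebraically independent. -/
lemma roots_algInd {K L : Type*} [Field K] [Field L] [Algebra K L] {n : ℕ} {P : L[X]}
    {θ : Fin n → L} (hP : P = nod θ) (ha : IsTranscendenceBasis K (fun i : Fin n => P.coeff i)) :
    AlgebraicIndependent K θ := by
  have hmem : ∀ i, P.coeff i ∈ Algebra.adjoin K (Set.range θ) := by
    intro i
    have h1 : P ∈ Polynomial.lifts (algebraMap (Algebra.adjoin K (Set.range θ)) L) := by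
      rw [hP, nod]
      refine Subsemiring.prod_mem _ fun j _ => ?_
      refine (Polynomial.mem_lifts _).mpr
        ⟨X - C ⟨θ j, Algebra.subset_adjoin ⟨j, rfl⟩⟩, ?_⟩
      rw [Polynomial.map_sub, Polynomial.map_X, Polynomial.map_C]
      rfl
    rw [Polynomial.lifts_iff_coeff_lifts] at h1
    obtain ⟨c, hc⟩ := h1 i
    rw [← hc]
    exact c.2
  have halg : Algebra.IsAlgebraic (Algebra.adjoin K (Set.range θ)) L := by
    have h0 := ha.isAlgebraic
    have hle : Algebra.adjoin K (Set.range fun i : Fin n => P.coeff i) ≤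
        Algebra.adjoin K (Set.range θ) := by
      rw [Algebra.adjoin_le_iff]
      rintro _ ⟨i, rfl⟩
      exact hmem i
    constructor
    intro x
    have h1 := h0.isAlgebraic x
    obtain ⟨q, hq0, hq⟩ := h1
    refine ⟨q.map (Subalgebra.inclusion hle).toRingHom, ?_, ?_⟩
    · exact (Polynomial.map_ne_zero_iff (Subalgebra.inclusion_injective hle)).mpr hq0
    · rw [aeval_def, eval₂_map]
      exact hq
  have h1 := ha.lift_cardinalMk_eq_trdeg
  exact (Algebra.IsAlgebraic.isTranscendenceBasis_of_lift_le_trdeg_of_finite K θ h1.le).1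

/-- `y`, `z` algebraic over the coefficients: the coefficients are a transcendence basis. -/
lemma basis_of_gen {K E : Type*} [Field K] [Field E] [Algebra K E] {n : ℕ} {a : Fin n → E}
    (ha : AlgebraicIndependent K a) {y z : E}
    (hy : IsAlgebraic (Algebra.adjoin K (Set.range a)) y)
    (hz : IsAlgebraic (Algebra.adjoin K (Set.range a)) z)
    (htop : IntermediateField.adjoin K (insert y (insert z (Set.range a))) = ⊤) :
    IsTranscendenceBasis K a := by
  rw [ha.isTranscendenceBasis_iff_isAlgebraic]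
  constructor
  intro x
  have hx : x ∈ IntermediateField.adjoin K (insert y (insert z (Set.range a))) := by
    rw [htop]; trivial
  induction hx using IntermediateField.adjoin_induction with
  | mem x hx =>
    rcases Set.mem_insert_iff.mp hx with h | h
    · rw [h]; exact hy
    rcases Set.mem_insert_iff.mp h with h | h
    · rw [h]; exact hz
    · exact isAlgebraic_algebraMap
        (⟨x, Algebra.subset_adjoin h⟩ : Algebra.adjoin K (Set.range a))
  | algebraMap x =>
    exact isAlgebraic_algebraMap (algebraMap K (Algebra.adjoin K (Set.range a)) x)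
  | add x w _ _ hx hw => exact hx.add hw
  | inv x _ hx => exact hx.inv
  | mul x w _ _ hx hw => exact hx.mul hw

/-- A square root of a multiple of an element of a subring. -/
lemma isAlgebraic_of_sq {K E : Type*} [Field K] [Field E] [Algebra K E] {A : Subalgebra K E}
    {d : K} (hd : d ≠ 0) {y : E} {r : A} (h : (r : E) = algebraMap K E d * y ^ 2) :
    IsAlgebraic A y := by
  refine ⟨C (algebraMap K A d) * X ^ 2 - C r, ?_, ?_⟩
  · intro h0
    have h1 := congrArg (fun q => q.coeff 2) h0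
    simp only [coeff_sub, coeff_C_mul, coeff_X_pow, if_true, mul_one, coeff_zero] at h1
    rw [coeff_C, if_neg two_ne_zero, sub_zero] at h1
    apply hd
    have h2 := congrArg (algebraMap A E) h1
    rw [← IsScalarTower.algebraMap_apply, map_zero] at h2
    exact (map_eq_zero _).mp h2
  · rw [map_sub, map_mul, aeval_C, map_pow, aeval_X, aeval_C, ← IsScalarTower.algebraMap_apply]
    have h3 : algebraMap A E r = (r : E) := rfl
    rw [h3, h, sub_self]

/-- The generic polynomial is in the chart. -/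
theorem generic_chart {K : Type*} {E : Type u} [Field K] [CharZero K] [Field E] [Algebra K E]
    {n : ℕ} {P : E[X]} (hP : P.Monic) (hPn : P.natDegree = n) (hPs : P.Separable)
    (ha : IsTranscendenceBasis K (fun i : Fin n => P.coeff i)) :
    ∃ c p : E[X], ChartT n P c p := by
  have : CharZero E := charZero_of_injective_algebraMap (algebraMap K E).injective
  let L := AlgebraicClosure E
  let φ : E →+* L := algebraMap E L
  have : CharZero L := charZero_of_injective_algebraMap (algebraMap E L).injective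
  obtain ⟨θ, hθ, hPθ⟩ := exists_nod φ hP hPn hPs
  have ha' : IsTranscendenceBasis K (fun i : Fin n => (P.map φ).coeff i) := by
    have h1 := ha.algebraMap_comp (A := L)
    have h2 : (algebraMap E L ∘ fun i : Fin n => P.coeff i) =
        fun i : Fin n => (P.map φ).coeff i := by
      ext i
      rw [coeff_map]
      rfl
    rw [h2] at h1
    exact h1
  have hind := roots_algInd hPθ ha'
  obtain ⟨F, hF, hprop⟩ := exists_certZ.{u} n
  have hne : MvPolynomial.eval₂ (Int.castRingHom L) θ F ≠ 0 := by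
    intro h0
    have h1 : MvPolynomial.aeval θ (MvPolynomial.map (Int.castRingHom K) F) = 0 := by
      rw [MvPolynomial.aeval_def, MvPolynomial.eval₂_map]
      rw [show (algebraMap K L).comp (Int.castRingHom K) = Int.castRingHom L from
        RingHom.ext_int _ _]
      exact h0
    have h2 := hind (h1.trans (map_zero _).symm)
    exact hF (MvPolynomial.map_injective _ (Int.cast_injective) (h2.trans (map_zero _).symm))
  obtain ⟨g1, g2, g3⟩ := hprop L θ hne
  exact chartT_of_generic hP hPn hθ hPθ g2 g3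

/-- The parameters generate the field. -/
theorem rational_TR {K : Type*} {E : Type u} [Field K] [CharZero K] [Field E] [Algebra K E]
    {n : ℕ} (hn : 3 ≤ n) {d1 d2 : K} (hd1 : d1 ≠ 0) (hd2 : d2 ≠ 0) {P : E[X]} {y z : E}
    (hP : P.Monic) (hPn : P.natDegree = n) (hdisc : P.discr = algebraMap K E d2 * y ^ 2)
    (hcoef : P.coeff 0 = algebraMap K E d1 * z ^ 2) (hy : y ≠ 0) (hz : z ≠ 0)
    (ha : AlgebraicIndependent K (fun i : Fin n => P.coeff i))
    (htop : IntermediateField.adjoin K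
      (insert y (insert z (Set.range fun i : Fin n => P.coeff i))) = ⊤) :
    ∃ t : Fin n → E, AlgebraicIndependent K t ∧
      IntermediateField.adjoin K (Set.range t) = ⊤ := by
  have : CharZero E := charZero_of_injective_algebraMap (algebraMap K E).injective
  have hφ1 : algebraMap K E d1 ≠ 0 := (_root_.map_ne_zero _).mpr hd1
  have hφ2 : algebraMap K E d2 ≠ 0 := (_root_.map_ne_zero _).mpr hd2
  have hPs : P.Separable := separable_of_discr_ne_zero hP (by
    rw [hdisc]; exact mul_ne_zero hφ2 (pow_ne_zero 2 hy))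
  obtain ⟨r, hr⟩ := discr_mem_adjoin (K := K) hP hPn
  have hbas : IsTranscendenceBasis K (fun i : Fin n => P.coeff i) := by
    refine basis_of_gen ha (y := y) (z := z)
      (isAlgebraic_of_sq hd2 (r := r) (by rw [hr, hdisc]))
      (isAlgebraic_of_sq hd1 (r := ⟨P.coeff 0, Algebra.subset_adjoin ⟨⟨0, by omega⟩, rfl⟩⟩)
        hcoef) htop
  obtain ⟨c, p, hcm, hcd, hcs, hc0, hpd, hdet, hfT⟩ := generic_chart hP hPn hPs hbas
  obtain ⟨e1, e2⟩ := discr_fT (by omega : 2 ≤ n) hcm hcd hcs hc0 (by rw [hfT]; exact hPs)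
  rw [hfT, hdisc] at e1
  rw [hfT, hdisc, hcoef] at e2
  obtain ⟨k1, hk1⟩ : ∃ k1, k1 = k1T n c p := ⟨_, rfl⟩
  obtain ⟨k2, hk2⟩ : ∃ k2, k2 = k2T n c p := ⟨_, rfl⟩
  rw [← hk1] at e1
  rw [← hk2] at e2
  have hA : algebraMap K E d2 * y ^ 2 ≠ 0 := mul_ne_zero hφ2 (pow_ne_zero 2 hy)
  have hB : algebraMap K E d1 * z ^ 2 * (algebraMap K E d2 * y ^ 2) ≠ 0 :=
    mul_ne_zero (mul_ne_zero hφ1 (pow_ne_zero 2 hz)) hA
  have hk10 : k1 ≠ 0 := fun h => hA (by rw [e1, h]; ring)
  have hk20 : k2 ≠ 0 := fun h => hB (by rw [e2, h]; ring)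
  obtain ⟨y1, hy1⟩ : ∃ y1, y1 = y / k1 := ⟨_, rfl⟩
  obtain ⟨z1, hz1⟩ : ∃ z1, z1 = z * y / k2 := ⟨_, rfl⟩
  have hc1 : c.eval 1 = algebraMap K E d2 * y1 ^ 2 := by
    rw [hy1]
    field_simp
    linear_combination -e1
  have hc0' : (-2 * p.coeff 0) ^ (n % 2) * c.coeff 0 =
      algebraMap K E d1 * algebraMap K E d2 * z1 ^ 2 := by
    rw [hz1]
    field_simp
    linear_combination -e2
  have hcsum : c.eval 1 = 1 + ∑ i ∈ range (n / 2), c.coeff i := by
    rw [eval_eq_sum_range, hcd, Finset.sum_range_succ]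
    have h1 : c.coeff (n / 2) = 1 := by
      conv_lhs => rw [← hcd]
      exact hcm.coeff_natDegree
    rw [h1]
    simp only [one_pow, mul_one]
    ring
  -- it suffices to find `t` such that the field contains the parameters
  suffices h : ∃ t : Fin n → E, y1 ∈ IntermediateField.adjoin K (Set.range t) ∧
      z1 ∈ IntermediateField.adjoin K (Set.range t) ∧
      (∀ i, c.coeff i ∈ IntermediateField.adjoin K (Set.range t)) ∧
      ∀ i, p.coeff i ∈ IntermediateField.adjoin K (Set.range t) by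
    obtain ⟨t, h1, h2, h3, h4⟩ := h
    have htop' : IntermediateField.adjoin K (Set.range t) = ⊤ := by
      set M := IntermediateField.adjoin K (Set.range t) with hM
      obtain ⟨c0, hc0E⟩ := exists_map_of_coeff h3
      obtain ⟨p0, hp0E⟩ := exists_map_of_coeff h4
      have hc0m : c0.Monic := by
        have h5 : (c0.map (algebraMap M E)).Monic := by rw [hc0E]; exact hcm
        exact ((algebraMap M E).injective.monic_map_iff).mpr h5
      obtain ⟨g1, g2, g3⟩ := map_fT (n := n) (algebraMap M E) (c := c0) (p := p0) hc0m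
      rw [hc0E, hp0E] at g1 g2 g3
      have hk1M : k1 ∈ M := by rw [hk1, ← g2]; exact (k1T n c0 p0).2
      have hk2M : k2 ∈ M := by rw [hk2, ← g3]; exact (k2T n c0 p0).2
      have hyM : y ∈ M := by
        have h5 : y = y1 * k1 := by rw [hy1, div_mul_cancel₀ _ hk10]
        rw [h5]; exact M.mul_mem h1 hk1M
      have hzM : z ∈ M := by
        have h5 : z = z1 * k2 / y := by
          rw [hz1, div_mul_cancel₀ _ hk20, mul_div_cancel_right₀ _ hy]
        rw [h5]; exact M.div_mem (M.mul_mem h2 hk2M) hyM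
      rw [eq_top_iff, ← htop, IntermediateField.adjoin_le_iff]
      rintro x hx
      rcases Set.mem_insert_iff.mp hx with h | h
      · rw [h]; exact hyM
      rcases Set.mem_insert_iff.mp h with h | h
      · rw [h]; exact hzM
      obtain ⟨i, rfl⟩ := h
      change P.coeff i ∈ M
      rw [← hfT, ← g1, coeff_map]
      exact ((fT n c0 p0).coeff i).2
    exact ⟨t, algInd_of_gen hbas htop', htop'⟩
  have hpbig : ∀ i, (n + 1) / 2 ≤ i → p.coeff i = 0 := fun i hi => by
    rw [degree_lt_iff_coeff_zero] at hpd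
    exact hpd i hi
  have hcbig : ∀ i, n / 2 < i → c.coeff i = 0 := fun i hi => by
    apply coeff_eq_zero_of_natDegree_lt
    rw [hcd]; exact hi
  have hctop : c.coeff (n / 2) = 1 := by
    conv_lhs => rw [← hcd]
    exact hcm.coeff_natDegree
  have hsub : ∀ (t : Fin n → E) (i : Fin n), t i ∈ IntermediateField.adjoin K (Set.range t) :=
    fun t i => IntermediateField.subset_adjoin K _ ⟨i, rfl⟩
  have halg : ∀ (t : Fin n → E) (a : K), algebraMap K E a ∈
      IntermediateField.adjoin K (Set.range t) := fun t a => IntermediateField.algebraMap_mem _ a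
  rcases Nat.even_or_odd n with hev | hodd
  · have hmod : n % 2 = 0 := Nat.even_iff.mp hev
    have hn1 : 2 ≤ n / 2 := by obtain ⟨m, hm⟩ := hev; omega
    rw [hmod, pow_zero, one_mul] at hc0'
    refine ⟨fun i => if (i : ℕ) = 0 then y1 else if (i : ℕ) = 1 then z1 else
      if (i : ℕ) < n / 2 then c.coeff i else p.coeff (i - n / 2), ?_, ?_, ?_, ?_⟩
    all_goals
      set t : Fin n → E := fun i => if (i : ℕ) = 0 then y1 else if (i : ℕ) = 1 then z1 else
        if (i : ℕ) < n / 2 then c.coeff i else p.coeff (i - n / 2) with ht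
    · have := hsub t ⟨0, by omega⟩
      simpa [ht] using this
    · have := hsub t ⟨1, by omega⟩
      simpa [ht] using this
    · have hy1M : y1 ∈ IntermediateField.adjoin K (Set.range t) := by
        have := hsub t ⟨0, by omega⟩
        simpa [ht] using this
      have hz1M : z1 ∈ IntermediateField.adjoin K (Set.range t) := by
        have := hsub t ⟨1, by omega⟩
        simpa [ht] using this
      have hcM : ∀ i, 2 ≤ i → i < n / 2 → c.coeff i ∈
          IntermediateField.adjoin K (Set.range t) := fun i h2 h3 => by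
        have := hsub t ⟨i, by omega⟩
        have e3 : ¬ (i = 0) := by omega
        have e4 : ¬ (i = 1) := by omega
        simpa [ht, e3, e4, h3] using this
      have hc0M : c.coeff 0 ∈ IntermediateField.adjoin K (Set.range t) := by
        rw [hc0']
        exact IntermediateField.mul_mem _ (IntermediateField.mul_mem _ (halg t _) (halg t _))
          (pow_mem hz1M 2)
      have hc1M : c.coeff 1 ∈ IntermediateField.adjoin K (Set.range t) := by
        have h5 : c.coeff 1 = algebraMap K E d2 * y1 ^ 2 - 1 - c.coeff 0 -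
            ∑ i ∈ range (n / 2 - 2), c.coeff (i + 2) := by
          have h6 : n / 2 = (n / 2 - 2) + 2 := by omega
          rw [← hc1, hcsum]
          conv_rhs => rw [h6]
          rw [Finset.sum_range_succ', Finset.sum_range_succ']
          simp only [Nat.add_sub_cancel]
          ring
        rw [h5]
        refine IntermediateField.sub_mem _ (IntermediateField.sub_mem _
          (IntermediateField.sub_mem _ (IntermediateField.mul_mem _ (halg t _)
          (pow_mem hy1M 2)) (IntermediateField.one_mem _)) hc0M) ?_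
        refine IntermediateField.sum_mem _ fun i hi => hcM _ (by omega) ?_
        rw [Finset.mem_range] at hi
        omega
      intro i
      rcases lt_trichotomy i (n / 2) with h | h | h
      · rcases Nat.lt_or_ge i 2 with h2 | h2
        · interval_cases i
          · exact hc0M
          · exact hc1M
        · exact hcM i h2 h
      · rw [h, hctop]; exact IntermediateField.one_mem _
      · rw [hcbig i h]; exact IntermediateField.zero_mem _
    · intro i
      rcases Nat.lt_or_ge i ((n + 1) / 2) with h | h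
      · have := hsub t ⟨n / 2 + i, by omega⟩
        have e3 : ¬ (n / 2 + i = 0) := by omega
        have e4 : ¬ (n / 2 + i = 1) := by omega
        have e5 : ¬ (n / 2 + i < n / 2) := by omega
        simpa only [ht, e3, e4, e5, if_false, Nat.add_sub_cancel_left] using this
      · rw [hpbig i h]; exact IntermediateField.zero_mem _
  · have hmod : n % 2 = 1 := Nat.odd_iff.mp hodd
    have hn1 : 1 ≤ n / 2 := by omega
    rw [hmod, pow_one] at hc0'
    refine ⟨fun i => if (i : ℕ) = 0 then y1 else if (i : ℕ) = 1 then z1 else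
      if (i : ℕ) < n / 2 + 1 then c.coeff (i - 1) else p.coeff (i - n / 2), ?_, ?_, ?_, ?_⟩
    all_goals
      set t : Fin n → E := fun i => if (i : ℕ) = 0 then y1 else if (i : ℕ) = 1 then z1 else
        if (i : ℕ) < n / 2 + 1 then c.coeff (i - 1) else p.coeff (i - n / 2) with ht
    all_goals
      have hy1M : y1 ∈ IntermediateField.adjoin K (Set.range t) := by
        have := hsub t ⟨0, by omega⟩
        simpa [ht] using this
      have hz1M : z1 ∈ IntermediateField.adjoin K (Set.range t) := by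
        have := hsub t ⟨1, by omega⟩
        simpa [ht] using this
      have hcM : ∀ i, 1 ≤ i → i < n / 2 → c.coeff i ∈
          IntermediateField.adjoin K (Set.range t) := fun i h2 h3 => by
        have := hsub t ⟨i + 1, by omega⟩
        have e3 : ¬ (i + 1 = 0) := by omega
        have e4 : ¬ (i + 1 = 1) := by omega
        have e5 : i + 1 < n / 2 + 1 := by omega
        simpa only [ht, e3, e4, e5, if_false, if_true, Nat.add_sub_cancel] using this
      have hc0M : c.coeff 0 ∈ IntermediateField.adjoin K (Set.range t) := by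
        have h5 : c.coeff 0 = algebraMap K E d2 * y1 ^ 2 - 1 -
            ∑ i ∈ range (n / 2 - 1), c.coeff (i + 1) := by
          have h6 : n / 2 = (n / 2 - 1) + 1 := by omega
          rw [← hc1, hcsum]
          conv_rhs => rw [h6]
          rw [Finset.sum_range_succ']
          simp only [Nat.add_sub_cancel]
          ring
        rw [h5]
        refine IntermediateField.sub_mem _ (IntermediateField.sub_mem _
          (IntermediateField.mul_mem _ (halg t _) (pow_mem hy1M 2))
          (IntermediateField.one_mem _)) ?_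
        refine IntermediateField.sum_mem _ fun i hi => hcM _ (by omega) ?_
        rw [Finset.mem_range] at hi
        omega
    · exact hy1M
    · exact hz1M
    · intro i
      rcases lt_trichotomy i (n / 2) with h | h | h
      · rcases Nat.eq_zero_or_pos i with h2 | h2
        · rw [h2]; exact hc0M
        · exact hcM i h2 h
      · rw [h, hctop]; exact IntermediateField.one_mem _
      · rw [hcbig i h]; exact IntermediateField.zero_mem _
    · intro i
      rcases Nat.lt_or_ge i ((n + 1) / 2) with h | h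
      · rcases Nat.eq_zero_or_pos i with h2 | h2
        · have h5 : p.coeff i = algebraMap K E d1 * algebraMap K E d2 * z1 ^ 2 /
              (algebraMap K E (-2) * c.coeff 0) := by
            have h7 : algebraMap K E (-2) = -2 := by
              rw [map_neg, map_ofNat]
            have h8 : (-2 : E) * c.coeff 0 ≠ 0 :=
              mul_ne_zero (neg_ne_zero.mpr two_ne_zero) hc0
            rw [h7, eq_div_iff h8, h2]
            linear_combination hc0'
          rw [h5]
          exact IntermediateField.div_mem _ (IntermediateField.mul_mem _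
            (IntermediateField.mul_mem _ (halg t _) (halg t _))
            (pow_mem hz1M 2)) (IntermediateField.mul_mem _ (halg t _) hc0M)
        · have := hsub t ⟨n / 2 + i, by omega⟩
          have e3 : ¬ (n / 2 + i = 0) := by omega
          have e4 : ¬ (n / 2 + i = 1) := by omega
          have e5 : ¬ (n / 2 + i < n / 2 + 1) := by omega
          simpa only [ht, e3, e4, e5, if_false, Nat.add_sub_cancel_left] using this
      · rw [hpbig i h]; exact IntermediateField.zero_mem _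

end Pool.Agent.Lib.MP_12adaf_nt
end
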